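import Pool.Agent.Helper12_CW.Kernel
import Pool.Agent.Helper12_FV.General

set_option autoImplicit false

/-!
One block: reduced terms, good points, bad primes.
-/

namespace Pool.Agent.Helper12_CW

open Polynomial Pool.Agent.Helper12_D3 Pool.Agent.Helper12_FV

variable {c : ℕ}

/-- The logarithmic size of the bad number of a block. -/
def LB (k T D b ε B : ℕ) : ℕ :=
  ε * T + ε * T + (2 * D * (2 * D) + ε * (2 * D)) * (T * T) +
    (D + b + B + 1) * (k * k * T * (D * (2 * B + 1)))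

lemma exists_classes {k m : ℕ} (e : Fin k → Fin m → ℕ) (B : ℕ) :
    ∃ (κ : Fin k → Fin k) (E0 r : Fin k → Fin m → ℕ),
      (∀ u j, e u j = E0 (κ u) j + r u j) ∧ (∀ u j, r u j ≤ k * B) ∧
      ∀ i i', (∀ j, |(e i j : ℤ) - e i' j| ≤ B) → κ i = κ i' := by
  classical
  set G := closeGraph e B with hG
  have h1 : ∀ i0 : Fin k, ∃ (e0 : Fin m → ℕ) (r : Fin k → Fin m → ℕ), ∀ i, G.Reachable i0 i →
      ∀ j, e i j = e0 j + r i j ∧ r i j ≤ k * B := fun i0 => exists_common e B i0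
  choose E0 r hr using h1
  refine ⟨fun u => (G.connectedComponentMk u).out, E0,
    fun u => r (G.connectedComponentMk u).out u, ?_, ?_, ?_⟩
  · intro u j
    refine (hr _ u ?_ j).1
    exact SimpleGraph.ConnectedComponent.eq.1 (Quot.out_eq (G.connectedComponentMk u))
  · intro u j
    refine (hr _ u ?_ j).2
    exact SimpleGraph.ConnectedComponent.eq.1 (Quot.out_eq (G.connectedComponentMk u))
  · intro i i' h
    by_cases hii : i = i'
    · rw [hii]
    · have h2 : G.connectedComponentMk i = G.connectedComponentMk i' := by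
        apply SimpleGraph.ConnectedComponent.sound
        apply SimpleGraph.Adj.reachable
        refine ⟨hii, fun j => ?_⟩
        have := h j
        rw [abs_le] at this
        constructor <;> omega
      simp only [h2]

theorem block_cop (m k D T b ε B : ℕ) (f : Fin m → MvPolynomial (Fin c) ℤ)
    (A : Fin k → MvPolynomial (Fin c) ℤ) (e : Fin k → Fin m → ℕ) (κ : Fin k → Fin k)
    (E0 r : Fin k → Fin m → ℕ) (hE : ∀ u j, e u j = E0 (κ u) j + r u j)
    (hr : ∀ u j, r u j ≤ k * B)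
    (hκ : ∀ i i', (∀ j, |(e i j : ℤ) - e i' j| ≤ B) → κ i = κ i')
    (hdeg1 : ∀ j, 1 ≤ (f j).totalDegree) (hdegD : ∀ j, (f j).totalDegree ≤ D)
    (hT : ∑ j, (f j).totalDegree ≤ T) (hAD : ∀ i, (A i).totalDegree ≤ D)
    (he : ∀ i j, e i j ≤ 2 ^ b) (hB1 : k * (D + k * T) ≤ B)
    (α β : Fin c → ℤ) (hfα : ∀ j, MvPolynomial.eval α (f j) ≠ 0)
    (hfβ : ∀ j, MvPolynomial.eval β (topp (f j)) ≠ 0)
    (hres : ∀ j j', j ≠ j' →
        resultant (onl α β (f j)) (onl α β (f j')) (f j).totalDegree (f j').totalDegree ≠ 0)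
    (hfE : ∀ j i, ((onl α β (f j)).coeff i).natAbs ≤ 2 ^ ε) :
    ∃ bad : ℕ, bad ≠ 0 ∧ bad ≤ 2 ^ LB k T D b ε B ∧
      ∀ (p : ℕ) [Fact p.Prime], ¬ p ∣ bad → B < p →
      T + T * T * (2 * D * D) + (D + k * B * T) < p →
      ∀ N, B + k ≤ N → ∀ b' : Fin k → ZMod p,
      (∀ d : Fin c →₀ ℕ, d.degree < N →
        ∑ u, b' u * (sh (fun s => (α s : ZMod p)) (A u * ∏ j, f j ^ e u j)).coeff d = 0) →
      ∀ q : Fin k, ∑ u with κ u = q, MvPolynomial.C (b' u) *
        sh (fun s => (α s : ZMod p)) (A u * ∏ j, f j ^ r u j) = 0 := by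
  classical
  have hmT : m ≤ T := by
    refine le_trans ?_ hT
    calc m = ∑ j : Fin m, 1 := by simp
      _ ≤ ∑ j, (f j).totalDegree := Finset.sum_le_sum fun j _ => hdeg1 j
  unfold LB
  -- sizes
  have hfα2 : ∀ j, (MvPolynomial.eval α (f j)).natAbs ≤ 2 ^ ε := by
    intro j
    have h := hfE j 0
    rw [coeff_zero_eq_eval_zero, eval_zero_onl] at h
    exact h
  have hfβ2 : ∀ j, (MvPolynomial.eval β (topp (f j))).natAbs ≤ 2 ^ ε := by
    intro j
    have h := hfE j (f j).totalDegree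
    rw [coeff_onl] at h
    exact h
  obtain ⟨ϱ, hϱ⟩ : ∃ ϱ : Fin m → Fin m → ℤ, ∀ j j', ϱ j j' =
      resultant (onl α β (f j)) (onl α β (f j')) (f j).totalDegree (f j').totalDegree :=
    ⟨fun j j' => resultant (onl α β (f j)) (onl α β (f j')) (f j).totalDegree
      (f j').totalDegree, fun _ _ => rfl⟩
  have hϱ0 : ∀ j j', j ≠ j' → ϱ j j' ≠ 0 := by
    intro j j' h
    rw [hϱ]
    exact hres j j' h
  have hϱb : ∀ j j', (ϱ j j').natAbs ≤ 2 ^ (2 * D * (2 * D) + ε * (2 * D)) := by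
    intro j j'
    rw [hϱ]
    refine (natAbs_resultant_le α β D (2 ^ ε) Nat.one_le_two_pow _ _ (hdegD _) (hdegD _)
      (hfE _) (hfE _)).trans ?_
    rw [← pow_mul, ← pow_add]
  -- the bad number
  set Z : Finset ((Fin k × Fin k × Fin m) × ℤ × ℤ) :=
    (Finset.univ ×ˢ (Finset.Icc (1 : ℤ) D ×ˢ Finset.Icc (-(B : ℤ)) B)).filter
      fun z => z.2.1 * ((e z.1.1 z.1.2.2 : ℤ) - e z.1.2.1 z.1.2.2) - z.2.2 ≠ 0 with hZ
  set F1 : ℕ := ∏ j, (MvPolynomial.eval α (f j)).natAbs with hF1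
  set F2 : ℕ := ∏ j, (MvPolynomial.eval β (topp (f j))).natAbs with hF2
  set F3 : ℕ := ∏ jj ∈ (Finset.univ : Finset (Fin m)).offDiag, (ϱ jj.1 jj.2).natAbs with hF3
  set F4 : ℕ := ∏ z ∈ Z, (z.2.1 * ((e z.1.1 z.1.2.2 : ℤ) - e z.1.2.1 z.1.2.2) - z.2.2).natAbs
    with hF4
  have hF1ne : F1 ≠ 0 := Finset.prod_ne_zero_iff.2 fun j _ => Int.natAbs_ne_zero.2 (hfα j)
  have hF2ne : F2 ≠ 0 := Finset.prod_ne_zero_iff.2 fun j _ => Int.natAbs_ne_zero.2 (hfβ j)
  have hF3ne : F3 ≠ 0 := Finset.prod_ne_zero_iff.2 fun jj hjj =>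
    Int.natAbs_ne_zero.2 (hϱ0 _ _ (Finset.mem_offDiag.1 hjj).2.2)
  have hF4ne : F4 ≠ 0 := Finset.prod_ne_zero_iff.2 fun z hz =>
    Int.natAbs_ne_zero.2 (Finset.mem_filter.1 hz).2
  have hb1 : F1 ≤ 2 ^ (ε * T) := prod_le_two_pow' _ _ _ _ (by simpa using hmT) fun j _ => hfα2 j
  have hb2 : F2 ≤ 2 ^ (ε * T) := prod_le_two_pow' _ _ _ _ (by simpa using hmT) fun j _ => hfβ2 j
  have hb3 : F3 ≤ 2 ^ ((2 * D * (2 * D) + ε * (2 * D)) * (T * T)) := by
    apply prod_le_two_pow'
    · rw [Finset.offDiag_card, Finset.card_univ, Fintype.card_fin]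
      exact (Nat.sub_le _ _).trans (Nat.mul_le_mul hmT hmT)
    · intro jj _
      exact hϱb _ _
  have hb4 : F4 ≤ 2 ^ ((D + b + B + 1) * (k * k * T * (D * (2 * B + 1)))) := by
    apply prod_le_two_pow'
    · refine (Finset.card_filter_le _ _).trans ?_
      rw [Finset.card_product, Finset.card_product, Int.card_Icc, Int.card_Icc, Finset.card_univ]
      simp only [Fintype.card_prod, Fintype.card_fin]
      apply Nat.mul_le_mul
      · rw [← mul_assoc]
        exact Nat.mul_le_mul_left _ hmT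
      · apply Nat.mul_le_mul
        · omega
        · omega
    · intro z hz
      rw [hZ, Finset.mem_filter, Finset.mem_product, Finset.mem_product, Finset.mem_Icc,
        Finset.mem_Icc] at hz
      obtain ⟨⟨_, ⟨h1, h2⟩, h3, h4⟩, _⟩ := hz
      have h5 := he z.1.1 z.1.2.2
      have h6 := he z.1.2.1 z.1.2.2
      have h7 : ((e z.1.1 z.1.2.2 : ℤ) - e z.1.2.1 z.1.2.2).natAbs ≤ 2 ^ b := by omega
      have h8 : z.2.1.natAbs ≤ D := by omega
      have h9 : z.2.2.natAbs ≤ B := by omega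
      refine (Int.natAbs_sub_le _ _).trans ?_
      rw [Int.natAbs_mul]
      have h10 : z.2.1.natAbs * ((e z.1.1 z.1.2.2 : ℤ) - e z.1.2.1 z.1.2.2).natAbs ≤
          2 ^ (D + b + B) := by
        calc _ ≤ D * 2 ^ b := Nat.mul_le_mul h8 h7
          _ ≤ 2 ^ D * 2 ^ b := Nat.mul_le_mul_right _ Nat.lt_two_pow_self.le
          _ = 2 ^ (D + b) := by rw [pow_add]
          _ ≤ 2 ^ (D + b + B) := Nat.pow_le_pow_right (by norm_num) (by omega)
      have h11 : z.2.2.natAbs ≤ 2 ^ (D + b + B) := by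
        calc _ ≤ B := h9
          _ ≤ 2 ^ B := Nat.lt_two_pow_self.le
          _ ≤ 2 ^ (D + b + B) := Nat.pow_le_pow_right (by norm_num) (by omega)
      rw [pow_succ]
      omega
  set NB : ℕ := F1 * F2 * F3 * F4 with hNB
  have hNBne : NB ≠ 0 := by
    rw [hNB]
    exact mul_ne_zero (mul_ne_zero (mul_ne_zero hF1ne hF2ne) hF3ne) hF4ne
  refine ⟨NB, hNBne, ?_, ?_⟩
  · rw [hNB, pow_add, pow_add, pow_add]
    exact Nat.mul_le_mul (Nat.mul_le_mul (Nat.mul_le_mul hb1 hb2) hb3) hb4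
  intro p hpf hpnd hBp hpbig N hN b' hlow q
  have hp : p.Prime := hpf.out
  have hnd : ∀ x, x ∣ NB → ¬ p ∣ x := fun x hx h => hpnd (h.trans hx)
  have hcast : ∀ z : ℤ, z.natAbs ∣ NB → (z : ZMod p) ≠ 0 := by
    intro z hz h0
    rw [ZMod.intCast_zmod_eq_zero_iff_dvd, Int.natCast_dvd] at h0
    exact hnd _ hz h0
  have hdF1 : F1 ∣ NB := by
    rw [hNB]
    exact ((Dvd.intro _ rfl).mul_right _).mul_right _
  have hdF2 : F2 ∣ NB := by
    rw [hNB]
    exact ((Dvd.intro_left _ rfl).mul_right _).mul_right _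
  have hdF3 : F3 ∣ NB := by
    rw [hNB]
    exact (Dvd.intro_left _ rfl).mul_right _
  have hdF4 : F4 ∣ NB := by
    rw [hNB]
    exact Dvd.intro_left _ rfl
  have hgood : Good p e D B := by
    refine ⟨hBp, ?_⟩
    intro i i' j a' b' h1 h2 hb' hne' hdvd
    have hz : ((i, i', j), a', b') ∈ Z := by
      rw [hZ, Finset.mem_filter, Finset.mem_product, Finset.mem_product, Finset.mem_Icc,
        Finset.mem_Icc]
      rw [abs_le] at hb'
      exact ⟨⟨Finset.mem_univ _, ⟨h1, h2⟩, hb'⟩, sub_ne_zero.2 hne'⟩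
    have h3 := hcast (a' * ((e i j : ℤ) - e i' j) - b')
      ((Finset.dvd_prod_of_mem (fun z : (Fin k × Fin k × Fin m) × ℤ × ℤ =>
        (z.2.1 * ((e z.1.1 z.1.2.2 : ℤ) - e z.1.2.1 z.1.2.2) - z.2.2).natAbs) hz).trans hdF4)
    apply h3
    rw [ZMod.intCast_zmod_eq_zero_iff_dvd]
    exact hdvd
  refine kernel (D := D) (B := B) (N := N) (T := T) (DH := D + k * B * T) f A e κ E0 r hE hκ
    hdeg1 hdegD hAD hT ?_ α β ?_ ?_ ?_ hgood ?_ hN hpbig b' hlow q
  · intro u
    refine (MvPolynomial.totalDegree_mul _ _).trans (add_le_add (hAD u) ?_)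
    refine (MvPolynomial.totalDegree_finsetProd _ _).trans ?_
    refine (Finset.sum_le_sum fun j _ => (MvPolynomial.totalDegree_pow _ _).trans
      (Nat.mul_le_mul_right _ (hr u j))).trans ?_
    rw [← Finset.mul_sum]
    exact Nat.mul_le_mul_left _ hT
  · intro j
    exact hcast (MvPolynomial.eval α (f j)) ((Finset.dvd_prod_of_mem
      (fun j => (MvPolynomial.eval α (f j)).natAbs) (Finset.mem_univ j)).trans hdF1)
  · intro j
    exact hcast (MvPolynomial.eval β (topp (f j))) ((Finset.dvd_prod_of_mem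
      (fun j => (MvPolynomial.eval β (topp (f j))).natAbs) (Finset.mem_univ j)).trans hdF2)
  · intro j j' hjj
    rw [← hϱ]
    have hmem : (j, j') ∈ (Finset.univ : Finset (Fin m)).offDiag :=
      Finset.mem_offDiag.2 ⟨Finset.mem_univ j, Finset.mem_univ j', hjj⟩
    exact hcast (ϱ j j') ((Finset.dvd_prod_of_mem (fun jj : Fin m × Fin m =>
        (ϱ jj.1 jj.2).natAbs) hmem).trans hdF3)
  · refine le_trans ?_ hB1
    exact Nat.mul_le_mul_left _ (Nat.add_le_add_left (Nat.mul_le_mul_left _ hT) _)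

/-- Everything needed about one block. -/
theorem block (m k D b B : ℕ) (f : Fin m → MvPolynomial (Fin c) ℤ)
    (A : Fin k → MvPolynomial (Fin c) ℤ) (e : Fin k → Fin m → ℕ)
    (hprim : ∀ j, ∀ z : ℤ, MvPolynomial.C z ∣ f j → IsUnit z)
    (hfD : ∀ j, (f j).totalDegree ≤ D) (hAD : ∀ i, (A i).totalDegree ≤ D)
    (hfl : ∀ j, len (f j) ≤ 2 ^ b) (hAl : ∀ i, len (A i) ≤ 2 ^ b)
    (he : ∀ i j, e i j ≤ 2 ^ b) (hB1 : k * (D + k * (m * D)) ≤ B) :
    ∃ (κ : Fin k → Fin k) (Cf h : Fin k → MvPolynomial (Fin c) ℤ) (P1 : MvPolynomial (Fin c) ℤ)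
      (P2 : (Fin c → ℤ) → MvPolynomial (Fin c) ℤ),
      (∀ u, A u * ∏ j, f j ^ e u j = Cf (κ u) * h u) ∧
      (∀ u, (h u).totalDegree ≤ D + k * B * (m * D)) ∧
      (∀ (M v : ℕ), 1 ≤ M → 2 * M ≤ 2 ^ v → ∀ x : Fin c → ℤ, (∀ s, (x s).natAbs ≤ M) →
        (∀ j, MvPolynomial.eval x (f j) ≠ 0) →
        ∀ u, (MvPolynomial.eval x (h u)).natAbs ≤ 2 ^ ((b + v * D) * (1 + k * B * (m * D)))) ∧
      P1 ≠ 0 ∧ P1.totalDegree ≤ m * D ∧
      ∀ β : Fin c → ℤ, MvPolynomial.eval β P1 ≠ 0 → P2 β ≠ 0 ∧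
        (P2 β).totalDegree ≤ m * D + m * D * (m * D) * (2 * D * D) ∧
        ∀ α : Fin c → ℤ, MvPolynomial.eval α (P2 β) ≠ 0 → ∀ (M v ε : ℕ), 1 ≤ M → 2 * M ≤ 2 ^ v →
        b + v * D + 2 * D ≤ ε → (∀ s, (α s).natAbs ≤ M) → (∀ s, (β s).natAbs ≤ M) →
        ∃ bad : ℕ, bad ≠ 0 ∧ bad ≤ 2 ^ LB k (m * D) D (m + D + b) ε B ∧
        ∀ (p : ℕ) [Fact p.Prime], ¬ p ∣ bad → B < p →
        m * D + m * D * (m * D) * (2 * D * D) + (D + k * B * (m * D)) < p →
        ∀ N, B + k ≤ N → ∀ b' : Fin k → ZMod p,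
        (∀ d : Fin c →₀ ℕ, d.degree < N →
          ∑ u, b' u * (sh (fun s => (α s : ZMod p)) (A u * ∏ j, f j ^ e u j)).coeff d = 0) →
        ∀ q : Fin k, ∑ u with κ u = q, MvPolynomial.C (b' u) *
          sh (fun s => (α s : ZMod p)) (h u) = 0 := by
  classical
  have hsumT : ∑ j, (f j).totalDegree ≤ m * D := by
    refine (Finset.sum_le_sum fun j _ => hfD j).trans ?_
    simp
  obtain ⟨m', g, a, u, hu, hg1, hgd, hgT, hrel, hfac, haD⟩ :=
    exists_factorization m D (m * D) f hprim hfD hsumT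
  have hf0 : ∀ j, f j ≠ 0 := by
    intro j h0
    have := hprim j 0 (by rw [h0]; exact dvd_zero _)
    exact not_isUnit_zero this
  have hgD : ∀ t, (g t).totalDegree ≤ D := by
    intro t
    obtain ⟨j, hj⟩ := hgd t
    exact (MvPolynomial.totalDegree_le_of_dvd_of_isDomain hj (hf0 j)).trans (hfD j)
  have hg0 : ∀ t, g t ≠ 0 := by
    intro t h0
    have := hg1 t
    rw [h0] at this
    simp at this
  have hunit : ∀ i, IsUnit (∏ j, u j ^ e i j) := by
    intro i
    rw [IsUnit.prod_univ_iff]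
    exact fun j => (hu j).pow _
  have hrw : ∀ i, A i * ∏ j, f j ^ e i j =
      (A i * ∏ j, u j ^ e i j) * ∏ t, g t ^ (∑ j, a j t * e i j) := by
    intro i
    have h1 : ∏ j, f j ^ e i j = (∏ j, u j ^ e i j) * ∏ t, g t ^ (∑ j, a j t * e i j) := by
      have h2 : ∀ j, f j ^ e i j = u j ^ e i j * ∏ t, g t ^ (a j t * e i j) := by
        intro j
        conv_lhs => rw [hfac j]
        rw [mul_pow, ← Finset.prod_pow]
        congr 1
        exact Finset.prod_congr rfl fun t _ => by rw [pow_mul]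
      rw [Finset.prod_congr rfl fun j _ => h2 j, Finset.prod_mul_distrib, Finset.prod_comm]
      congr 1
      exact Finset.prod_congr rfl fun t _ => Finset.prod_pow_eq_pow_sum _ _ _
    rw [h1, mul_assoc]
  obtain ⟨A', hA'⟩ : ∃ A' : Fin k → MvPolynomial (Fin c) ℤ, ∀ i, A' i = A i * ∏ j, u j ^ e i j :=
    ⟨_, fun _ => rfl⟩
  obtain ⟨e', he'⟩ : ∃ e' : Fin k → Fin m' → ℕ, ∀ i t, e' i t = ∑ j, a j t * e i j :=
    ⟨_, fun _ _ => rfl⟩
  have hrw2 : ∀ i, A i * ∏ j, f j ^ e i j = A' i * ∏ t, g t ^ e' i t := by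
    intro i
    rw [hrw, hA']
    congr 1
    exact Finset.prod_congr rfl fun t _ => by rw [he']
  have hd1 : ∀ i, (A' i).totalDegree ≤ D := by
    intro i
    rw [hA']
    refine (MvPolynomial.totalDegree_mul _ _).trans ?_
    rw [totalDegree_unit (hunit i), add_zero]
    exact hAD i
  have hd2 : ∀ i t, e' i t ≤ 2 ^ (m + D + b) := by
    intro i t
    rw [he']
    calc ∑ j, a j t * e i j ≤ ∑ _j : Fin m, D * 2 ^ b :=
          Finset.sum_le_sum fun j _ => Nat.mul_le_mul (haD j t) (he i j)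
      _ = m * (D * 2 ^ b) := by simp
      _ ≤ 2 ^ m * (2 ^ D * 2 ^ b) := Nat.mul_le_mul Nat.lt_two_pow_self.le
          (Nat.mul_le_mul_right _ Nat.lt_two_pow_self.le)
      _ = 2 ^ (m + D + b) := by rw [pow_add, pow_add, mul_assoc]
  obtain ⟨κ, E0, r, hE, hr, hκ⟩ := exists_classes e' B
  have hmT : m' ≤ m * D := by
    refine le_trans ?_ hgT
    calc m' = ∑ j : Fin m', 1 := by simp
      _ ≤ ∑ j, (g j).totalDegree := Finset.sum_le_sum fun j _ => hg1 j
  have h2D : D + 1 ≤ 2 ^ D := Nat.lt_two_pow_self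
  refine ⟨κ, fun q => ∏ t, g t ^ E0 q t, fun v => A' v * ∏ t, g t ^ r v t, ∏ t, topp (g t),
    fun β => (∏ t, g t) * ∏ tt ∈ (Finset.univ : Finset (Fin m')).offDiag,
      rho β (g tt.1) (g tt.2), ?_, ?_, ?_, ?_, ?_, ?_⟩
  · intro v
    rw [hrw2, mul_left_comm, ← Finset.prod_mul_distrib]
    congr 1
    exact Finset.prod_congr rfl fun t _ => by rw [hE, pow_add]
  · intro v
    refine (MvPolynomial.totalDegree_mul _ _).trans (add_le_add (hd1 v) ?_)
    refine (MvPolynomial.totalDegree_finsetProd _ _).trans ?_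
    refine (Finset.sum_le_sum fun j _ => (MvPolynomial.totalDegree_pow _ _).trans
      (Nat.mul_le_mul_right _ (hr v j))).trans ?_
    rw [← Finset.mul_sum]
    exact Nat.mul_le_mul_left _ hgT
  · intro M v hM1 hMv x hx hfx w
    have hgx : ∀ t, (MvPolynomial.eval x (g t)).natAbs ≤ 2 ^ (b + v * D) := by
      intro t
      obtain ⟨j, hj⟩ := hgd t
      have h1 : (MvPolynomial.eval x (g t)).natAbs ≤ (MvPolynomial.eval x (f j)).natAbs := by
        apply Nat.le_of_dvd (Nat.pos_of_ne_zero (Int.natAbs_ne_zero.2 (hfx j)))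
        exact Int.natAbs_dvd_natAbs.2 (map_dvd (MvPolynomial.eval x) hj)
      refine h1.trans ((natAbs_eval_le x M D hM1 hx (f j) (hfD j)).trans ?_)
      calc len (f j) * (2 * M) ^ D ≤ 2 ^ b * (2 ^ v) ^ D :=
            Nat.mul_le_mul (hfl j) (Nat.pow_le_pow_left hMv _)
        _ = 2 ^ (b + v * D) := by rw [← pow_mul, ← pow_add]
    have hAx : (MvPolynomial.eval x (A' w)).natAbs ≤ 2 ^ (b + v * D) := by
      rw [hA', map_mul, Int.natAbs_mul, natAbs_eval_unit x (hunit w), mul_one]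
      refine (natAbs_eval_le x M D hM1 hx (A w) (hAD w)).trans ?_
      calc len (A w) * (2 * M) ^ D ≤ 2 ^ b * (2 ^ v) ^ D :=
            Nat.mul_le_mul (hAl w) (Nat.pow_le_pow_left hMv _)
        _ = 2 ^ (b + v * D) := by rw [← pow_mul, ← pow_add]
    have hrS : ∑ t, r w t ≤ k * B * (m * D) := by
      refine (Finset.sum_le_sum fun t _ => hr w t).trans ?_
      rw [Finset.sum_const, Finset.card_univ, Fintype.card_fin, smul_eq_mul, mul_comm]
      exact Nat.mul_le_mul_left _ hmT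
    rw [map_mul, map_prod, Int.natAbs_mul]
    have h2 : (∏ t, MvPolynomial.eval x (g t ^ r w t)).natAbs =
        ∏ t, (MvPolynomial.eval x (g t)).natAbs ^ r w t := by
      have : (∏ t, MvPolynomial.eval x (g t ^ r w t)).natAbs =
          ∏ t, (MvPolynomial.eval x (g t ^ r w t)).natAbs := map_prod Int.natAbsHom _ _
      rw [this]
      apply Finset.prod_congr rfl
      intro t _
      rw [map_pow, Int.natAbs_pow]
    rw [h2, mul_add, mul_one, pow_add]
    apply Nat.mul_le_mul hAx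
    calc ∏ t, (MvPolynomial.eval x (g t)).natAbs ^ r w t ≤ ∏ t, (2 ^ (b + v * D)) ^ r w t :=
          Finset.prod_le_prod' fun t _ => Nat.pow_le_pow_left (hgx t) _
      _ = (2 ^ (b + v * D)) ^ ∑ t, r w t := Finset.prod_pow_eq_pow_sum _ _ _
      _ ≤ (2 ^ (b + v * D)) ^ (k * B * (m * D)) :=
          Nat.pow_le_pow_right (Nat.one_le_two_pow) hrS
      _ = 2 ^ ((b + v * D) * (k * B * (m * D))) := by rw [← pow_mul]
  · exact Finset.prod_ne_zero_iff.2 fun t _ => topp_ne_zero (hg0 t)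
  · refine (MvPolynomial.totalDegree_finsetProd _ _).trans ?_
    exact (Finset.sum_le_sum fun t _ => totalDegree_topp_le (g t)).trans hgT
  · intro β hβ
    rw [map_prod] at hβ
    have hβ' : ∀ t, MvPolynomial.eval β (topp (g t)) ≠ 0 := fun t =>
      Finset.prod_ne_zero_iff.1 hβ t (Finset.mem_univ t)
    refine ⟨?_, ?_, ?_⟩
    · exact mul_ne_zero (Finset.prod_ne_zero_iff.2 fun t _ => hg0 t)
        (Finset.prod_ne_zero_iff.2 fun tt htt => rho_ne_zero β _ _ (hg1 _) (hβ' _) (hβ' _)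
          (hrel _ _ (Finset.mem_offDiag.1 htt).2.2))
    · refine (MvPolynomial.totalDegree_mul _ _).trans (add_le_add ?_ ?_)
      · exact (MvPolynomial.totalDegree_finsetProd _ _).trans hgT
      · refine (MvPolynomial.totalDegree_finsetProd _ _).trans ?_
        refine (Finset.sum_le_sum fun jj _ =>
          totalDegree_rho_le β _ _ D (hgD jj.1) (hgD jj.2)).trans ?_
        rw [Finset.sum_const, smul_eq_mul]
        apply Nat.mul_le_mul_right
        rw [Finset.offDiag_card, Finset.card_univ, Fintype.card_fin]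
        exact (Nat.sub_le _ _).trans (Nat.mul_le_mul hmT hmT)
    · intro α hα M v ε hM1 hMv hε hαM hβM
      rw [map_mul, map_prod, map_prod] at hα
      have hα1 : ∀ t, MvPolynomial.eval α (g t) ≠ 0 := fun t =>
        Finset.prod_ne_zero_iff.1 (left_ne_zero_of_mul hα) t (Finset.mem_univ t)
      have hα2 : ∀ t t', t ≠ t' → resultant (onl α β (g t)) (onl α β (g t'))
          (g t).totalDegree (g t').totalDegree ≠ 0 := by
        intro t t' htt
        have h1 := Finset.prod_ne_zero_iff.1 (right_ne_zero_of_mul hα) (t, t')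
          (Finset.mem_offDiag.2 ⟨Finset.mem_univ _, Finset.mem_univ _, htt⟩)
        rw [eval_rho] at h1
        exact h1
      have hd3 : ∀ t i, ((onl α β (g t)).coeff i).natAbs ≤ 2 ^ ε := by
        intro t i
        obtain ⟨j, hj⟩ := hgd t
        have h1 : onl α β (f j) ≠ 0 := by
          intro h0
          have h3 : MvPolynomial.eval α (f j) = 0 := by
            have := eval_zero_onl α β (f j)
            rw [h0, eval_zero] at this
            exact this.symm
          rw [hfac j, map_mul, map_prod] at h3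
          rcases mul_eq_zero.1 h3 with h4 | h4
          · have := natAbs_eval_unit α (hu j)
            rw [h4] at this
            simp at this
          · rw [Finset.prod_eq_zero_iff] at h4
            obtain ⟨t', -, h5⟩ := h4
            rw [map_pow] at h5
            exact hα1 t' (eq_zero_of_pow_eq_zero h5)
        have hdv : onl α β (g t) ∣ onl α β (f j) := by
          obtain ⟨r, hr⟩ := hj
          rw [hr, map_mul]
          exact Dvd.intro _ rfl
        have hbd : ∀ i, ((onl α β (f j)).coeff i).natAbs ≤ len (f j) * (2 * M) ^ D := fun i =>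
          natAbs_coeff_onl_le α β M D hM1 hαM hβM (f j) (hfD j) i
        have hnd : (onl α β (f j)).natDegree ≤ D := (natDegree_onl_le _ _ _).trans (hfD j)
        obtain ⟨E, hE⟩ : ∃ E, E = len (f j) * (2 * M) ^ D := ⟨_, rfl⟩
        rw [← hE] at hbd
        have h2 := mignotte (onl α β (f j)) (onl α β (g t)) D E hdv h1 hnd hbd i
        refine h2.trans ?_
        rw [hE]
        calc 2 ^ D * ((D + 1) * (len (f j) * (2 * M) ^ D))
            ≤ 2 ^ D * (2 ^ D * (2 ^ b * (2 ^ v) ^ D)) := Nat.mul_le_mul_left _ (Nat.mul_le_mul h2D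
              (Nat.mul_le_mul (hfl j) (Nat.pow_le_pow_left hMv _)))
          _ = 2 ^ (b + v * D + 2 * D) := by
              rw [← pow_mul, ← pow_add, ← pow_add, ← pow_add]
              congr 1
              ring
          _ ≤ 2 ^ ε := Nat.pow_le_pow_right (by norm_num) hε
      obtain ⟨bad, hbad0, hbadle, hbad⟩ := block_cop m' k D (m * D) (m + D + b) ε B g A' e' κ E0 r
        hE hr hκ hg1 hgD hgT hd1 hd2 hB1 α β hα1 hβ' hα2 hd3
      refine ⟨bad, hbad0, hbadle, ?_⟩
      intro p hp hpb hBp hpbig N hN b' hlow q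
      refine hbad p hpb hBp hpbig N hN b' (fun d hd => ?_) q
      rw [← hlow d hd]
      apply Finset.sum_congr rfl
      intro v _
      rw [hrw2]

end Pool.Agent.Helper12_CW
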