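import Pool.Agent.Helper12_CW.Global
import Pool.Agent.Helper12_FV.Bound

set_option autoImplicit false

/-!
Explicit bounds.
-/

namespace Pool.Agent.Helper12_CW

open Pool.Agent.Helper12_FV

lemma bound_le (n m k b D w R Q : ℕ) (hQ : Q = n + m + k + w + b + D + R + 2) (Rb : ℕ)
    (hRb : Rb = R + (k * (D + k * (m * D)) + (m * D + m * D * (m * D) * (2 * D * D) +
      (D + k * (k * (D + k * (m * D))) * (m * D)))) + 1) :
    n * (m * D + m * D * (m * D) * (2 * D * D)) ≤ Q ^ 9 ∧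
    2 * Q ^ 9 ≤ 2 ^ (10 * Q) ∧ b + 10 * Q * D + 2 * D ≤ Q ^ 6 ∧
    n * (D + k * (k * (D + k * (m * D))) * (m * D)) + n * (m * D) ≤ Q ^ 11 ∧
    2 * Q ^ 11 ≤ 2 ^ (12 * Q) ∧
    64 * (Rb * Rb + LT n k w b (12 * Q * D) (1 + k * (k * (D + k * (m * D))) * (m * D)) +
        n * LB k (m * D) D (m + D + b) (Q ^ 6) (k * (D + k * (m * D))) + 1) ^ 2 ≤ Q ^ 60 := by
  have hQ2 : 2 ≤ Q := by omega
  have e1 : ∀ {x : ℕ}, x ≤ Q → x ≤ Q ^ 1 := fun h => by rwa [pow_one]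
  have hn : n ≤ Q ^ 1 := e1 (by omega)
  have hm : m ≤ Q ^ 1 := e1 (by omega)
  have hk : k ≤ Q ^ 1 := e1 (by omega)
  have hw : w ≤ Q ^ 1 := e1 (by omega)
  have hb : b ≤ Q ^ 1 := e1 (by omega)
  have hD : D ≤ Q ^ 1 := e1 (by omega)
  have hR : R ≤ Q ^ 1 := e1 (by omega)
  have hQ1 : Q ≤ Q ^ 1 := e1 le_rfl
  have h2 : 2 ≤ Q ^ 1 := e1 hQ2
  have h1 : 1 ≤ Q ^ 1 := e1 (by omega)
  have hT : m * D ≤ Q ^ 2 := mulb hm hD
  have hB : k * (D + k * (m * D)) ≤ Q ^ 5 :=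
    mulb hk (addb hQ2 (upb 3 hQ2 hD (by norm_num)) (mulb hk hT))
  obtain ⟨T, hTe⟩ : ∃ T, T = m * D := ⟨_, rfl⟩
  rw [← hTe] at hT hB hRb ⊢
  obtain ⟨B, hBe⟩ : ∃ B, B = k * (D + k * T) := ⟨_, rfl⟩
  rw [← hBe] at hB hRb ⊢
  have h3 : T * T * (2 * D * D) ≤ Q ^ 7 := mulb (mulb hT hT) (mulb (mulb h2 hD) hD)
  have h4 : k * B * T ≤ Q ^ 8 := mulb (mulb hk hB) hT
  have h5 : D + k * B * T ≤ Q ^ 9 := addb hQ2 (upb 8 hQ2 hD (by norm_num)) h4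
  have h6 : T + T * T * (2 * D * D) ≤ Q ^ 8 := addb hQ2 (upb 7 hQ2 hT (by norm_num)) h3
  have h16 : 16 ≤ Q ^ 4 := by
    calc 16 = 2 ^ 4 := by norm_num
      _ ≤ Q ^ 4 := Nat.pow_le_pow_left hQ2 _
  have hpow : ∀ j, Q ^ j ≤ 2 ^ (j * Q) := by
    intro j
    calc Q ^ j ≤ (2 ^ Q) ^ j := Nat.pow_le_pow_left Nat.lt_two_pow_self.le _
      _ = 2 ^ (j * Q) := by rw [← pow_mul, mul_comm]
  refine ⟨mulb hn h6, ?_, ?_, ?_, ?_, ?_⟩
  · calc 2 * Q ^ 9 ≤ Q * Q ^ 9 := Nat.mul_le_mul_right _ hQ2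
      _ = Q ^ 10 := by ring
      _ ≤ _ := hpow 10
  · have hD' : D ≤ Q := by omega
    have hb' : b + 2 * D ≤ 2 * Q := by omega
    have h7 : 10 * Q * D ≤ 10 * Q * Q := Nat.mul_le_mul_left _ hD'
    have h8 : Q ^ 6 = Q ^ 4 * (Q * Q) := by ring
    have h9 : 2 * Q ≤ Q * Q := Nat.mul_le_mul_right _ hQ2
    rw [h8]
    nlinarith [Nat.mul_le_mul_right (Q * Q) h16]
  · exact addb hQ2 (mulb hn h5) (upb 10 hQ2 (mulb hn hT) (by norm_num))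
  · calc 2 * Q ^ 11 ≤ Q * Q ^ 11 := Nat.mul_le_mul_right _ hQ2
      _ = Q ^ 12 := by ring
      _ ≤ _ := hpow 12
  · have hRb' : Rb ≤ Q ^ 12 := by
      rw [hRb]
      have a1 : T + T * T * (2 * D * D) + (D + k * B * T) ≤ Q ^ 10 :=
        addb hQ2 (upb 9 hQ2 h6 (by norm_num)) h5
      have a2 : B + (T + T * T * (2 * D * D) + (D + k * B * T)) ≤ Q ^ 11 :=
        addb hQ2 (upb 10 hQ2 hB (by norm_num)) a1
      have a3 : R + (B + (T + T * T * (2 * D * D) + (D + k * B * T))) + 1 ≤ Q ^ 12 := by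
        have a4 : R + 1 ≤ Q := by omega
        have a5 : Q ≤ Q ^ 11 := by
          calc Q = Q ^ 1 := (pow_one _).symm
            _ ≤ Q ^ 11 := Nat.pow_le_pow_right (by omega) (by norm_num)
        have a6 : (R + 1) + (B + (T + T * T * (2 * D * D) + (D + k * B * T))) ≤ Q ^ 12 :=
          addb hQ2 (a4.trans a5) a2
        omega
      exact a3
    obtain ⟨ε, hε⟩ : ∃ ε, ε = Q ^ 6 := ⟨_, rfl⟩
    have hε' : ε ≤ Q ^ 6 := hε.le
    rw [← hε]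
    obtain ⟨c, hc⟩ : ∃ c, c = m + D + b := ⟨_, rfl⟩
    have hc' : c ≤ Q ^ 1 := e1 (by omega)
    rw [← hc]
    have hLB : LB k T D c ε B ≤ Q ^ 20 := by
      unfold LB
      have a2 : ε * T ≤ Q ^ 8 := mulb hε' hT
      have a3 : 2 * D * (2 * D) ≤ Q ^ 4 := mulb (mulb h2 hD) (mulb h2 hD)
      have a4 : ε * (2 * D) ≤ Q ^ 8 := mulb hε' (mulb h2 hD)
      have a5 : (2 * D * (2 * D) + ε * (2 * D)) * (T * T) ≤ Q ^ 13 :=
        mulb (addb hQ2 (upb 8 hQ2 a3 (by norm_num)) a4) (mulb hT hT)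
      have a6 : D + c + B + 1 ≤ Q ^ 7 := by
        have b1 : D + c ≤ Q ^ 2 := addb hQ2 hD hc'
        have b2 : D + c + B ≤ Q ^ 6 := addb hQ2 (upb 5 hQ2 b1 (by norm_num)) hB
        exact addb hQ2 b2 (upb 6 hQ2 h1 (by norm_num))
      have a7 : 2 * B + 1 ≤ Q ^ 7 := addb hQ2 (mulb h2 hB) (upb 6 hQ2 h1 (by norm_num))
      have a8 : k * k * T * (D * (2 * B + 1)) ≤ Q ^ 12 := mulb (mulb (mulb hk hk) hT) (mulb hD a7)
      have a9 : (D + c + B + 1) * (k * k * T * (D * (2 * B + 1))) ≤ Q ^ 19 := mulb a6 a8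
      have c2 : ε * T + ε * T ≤ Q ^ 9 := addb hQ2 a2 a2
      have c3 : ε * T + ε * T + (2 * D * (2 * D) + ε * (2 * D)) * (T * T) ≤ Q ^ 14 :=
        addb hQ2 (upb 13 hQ2 c2 (by norm_num)) a5
      exact addb hQ2 (upb 19 hQ2 c3 (by norm_num)) a9
    have hLT : LT n k w b (12 * Q * D) (1 + k * B * T) ≤ Q ^ 21 := by
      unfold LT
      have a1 : b + 12 * Q * D ≤ Q ^ 6 := by
        have hD' : D ≤ Q := by omega
        have hb' : b ≤ Q := by omega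
        have h7 : 12 * Q * D ≤ 12 * Q * Q := Nat.mul_le_mul_left _ hD'
        have h8 : Q ^ 6 = Q ^ 4 * (Q * Q) := by ring
        have h9 : 2 * Q ≤ Q * Q := Nat.mul_le_mul_right _ hQ2
        rw [h8]
        nlinarith [Nat.mul_le_mul_right (Q * Q) h16]
      have a2 : 1 + k * B * T ≤ Q ^ 9 := addb hQ2 (upb 8 hQ2 h1 (by norm_num)) h4
      have a3 : (b + 12 * Q * D) * (1 + k * B * T) ≤ Q ^ 15 := mulb a1 a2
      have a4 : k + (b + 12 * Q * D) * (1 + k * B * T) ≤ Q ^ 16 :=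
        addb hQ2 (upb 15 hQ2 hk (by norm_num)) a3
      have a5 : k + (b + 12 * Q * D) * (1 + k * B * T) + b ≤ Q ^ 17 :=
        addb hQ2 a4 (upb 16 hQ2 hb (by norm_num))
      have a6 : w + (k + (b + 12 * Q * D) * (1 + k * B * T) + b) ≤ Q ^ 18 :=
        addb hQ2 (upb 17 hQ2 hw (by norm_num)) a5
      have a7 : n * (w + (k + (b + 12 * Q * D) * (1 + k * B * T) + b)) ≤ Q ^ 19 := mulb hn a6
      have a8 : w + 2 * b ≤ Q ^ 3 :=
        addb hQ2 (upb 2 hQ2 hw (by norm_num)) (mulb h2 hb)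
      exact upb 21 hQ2 (addb hQ2 (upb 19 hQ2 a8 (by norm_num)) a7) (by norm_num)
    obtain ⟨LL, hLL⟩ : ∃ LL, LL = Rb * Rb + LT n k w b (12 * Q * D) (1 + k * B * T) +
        n * LB k T D c ε B := ⟨_, rfl⟩
    have hL1 : LL ≤ Q ^ 26 := by
      rw [hLL]
      have a1 : Rb * Rb ≤ Q ^ 24 := mulb hRb' hRb'
      have a2 : n * LB k T D c ε B ≤ Q ^ 21 := mulb hn hLB
      exact addb hQ2 (addb hQ2 a1 (upb 24 hQ2 hLT (by norm_num))) (upb 25 hQ2 a2 (by norm_num))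
    rw [← hLL]
    have h64' : 64 ≤ Q ^ 6 := by
      calc 64 = 2 ^ 6 := by norm_num
        _ ≤ Q ^ 6 := Nat.pow_le_pow_left hQ2 _
    have h10 : (LL + 1) ^ 2 ≤ Q ^ 54 := by
      have h11 : LL + 1 ≤ Q ^ 27 := addb hQ2 hL1 (Nat.one_le_pow _ _ (by omega))
      calc (LL + 1) ^ 2 ≤ (Q ^ 27) ^ 2 := Nat.pow_le_pow_left h11 2
        _ = Q ^ 54 := by rw [← pow_mul]
    calc 64 * (LL + 1) ^ 2 ≤ Q ^ 6 * Q ^ 54 := Nat.mul_le_mul h64' h10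
      _ = Q ^ 60 := by rw [← pow_add]

end Pool.Agent.Helper12_CW
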