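import Mathlib

set_option autoImplicit false

/-!
Sparse polynomials do not vanish to high order at `1`; merging two variables.
-/

namespace Pool.Agent.Helper12_CW

open Polynomial

section

variable {K : Type} [Field K]

/-- The Euler operator. -/
noncomputable def euler (g : K[X]) : K[X] := X * derivative g

lemma euler_iter (g : K[X]) (i : ℕ) :
    euler^[i] g = ∑ j ∈ g.support, C ((j : K) ^ i * g.coeff j) * X ^ j := by
  induction i with
  | zero =>
    simp only [Function.iterate_zero, id_eq, pow_zero, one_mul]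
    exact as_sum_support_C_mul_X_pow g
  | succ i ih =>
    rw [Function.iterate_succ_apply', ih]
    unfold euler
    rw [derivative_sum, Finset.mul_sum]
    apply Finset.sum_congr rfl
    intro j _
    rw [derivative_C_mul_X_pow]
    rcases j with _ | j
    · simp
    · rw [Nat.add_sub_cancel, pow_succ (X : K[X]) j, pow_succ ((((j + 1 : ℕ)) : K)) i]
      simp only [C_mul]
      ring

lemma dvd_euler_iter (g : K[X]) (w i : ℕ) (h : (X - C 1) ^ w ∣ g) :
    (X - C 1) ^ (w - i) ∣ euler^[i] g := by
  induction i with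
  | zero => simpa using h
  | succ i ih =>
    rw [Function.iterate_succ_apply']
    unfold euler
    apply Dvd.dvd.mul_left
    have := pow_sub_one_dvd_derivative_of_pow_dvd ih
    rwa [Nat.sub_sub] at this

/-- A nonzero polynomial with at most `w` monomials, of degree less than the characteristic, does
not vanish to order `w` at `1`. -/
theorem sparse_mult (p : ℕ) [CharP K p] (g : K[X]) (w : ℕ) (hg : g ≠ 0)
    (hcard : g.support.card ≤ w) (hdeg : g.natDegree < p) : ¬ (X - C 1) ^ w ∣ g := by
  classical
  intro hdvd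
  have hev : ∀ i < w, ∑ j ∈ g.support, (j : K) ^ i * g.coeff j = 0 := by
    intro i hi
    have h1 := dvd_euler_iter g w i hdvd
    have h2 : (X - C (1 : K)) ∣ euler^[i] g := (dvd_pow_self _ (by omega)).trans h1
    rw [dvd_iff_isRoot, IsRoot.def, euler_iter, eval_finsetSum] at h2
    simpa using h2
  obtain ⟨j0, hj0⟩ : g.support.Nonempty := support_nonempty.2 hg
  set q : K[X] := ∏ j' ∈ g.support.erase j0, (X - C ((j' : ℕ) : K)) with hq
  have hqd : q.natDegree < w := by
    rw [hq, natDegree_prod_of_monic _ _ (fun j _ => monic_X_sub_C _)]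
    simp only [natDegree_X_sub_C, Finset.sum_const, smul_eq_mul, mul_one]
    rw [Finset.card_erase_of_mem hj0]
    have : 1 ≤ g.support.card := Finset.card_pos.2 ⟨j0, hj0⟩
    omega
  have hsum : ∑ j ∈ g.support, g.coeff j * q.eval (j : K) = 0 := by
    have h1 : ∀ j ∈ g.support, g.coeff j * q.eval (j : K)
        = ∑ i ∈ Finset.range w, q.coeff i * ((j : K) ^ i * g.coeff j) := by
      intro j _
      rw [eval_eq_sum_range' hqd, Finset.mul_sum]
      apply Finset.sum_congr rfl
      intro i _
      ring
    rw [Finset.sum_congr rfl h1, Finset.sum_comm]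
    apply Finset.sum_eq_zero
    intro i hi
    rw [← Finset.mul_sum, hev i (Finset.mem_range.1 hi), mul_zero]
  rw [Finset.sum_eq_single j0] at hsum
  · rcases mul_eq_zero.1 hsum with h | h
    · exact mem_support_iff.1 hj0 h
    · rw [hq, eval_prod, Finset.prod_eq_zero_iff] at h
      obtain ⟨j', hj', h'⟩ := h
      rw [Finset.mem_erase] at hj'
      rw [eval_sub, eval_X, eval_C, sub_eq_zero] at h'
      have hb : ∀ j ∈ g.support, j < p := fun j hj =>
        lt_of_le_of_lt (le_natDegree_of_mem_supp j hj) hdeg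
      exact hj'.1 (CharP.natCast_injOn_Iio K p (hb j0 hj0) (hb j' hj'.2) h').symm
  · intro j hj hne
    rw [hq, eval_prod, Finset.prod_eq_zero (i := j) (Finset.mem_erase.2 ⟨hne, hj⟩), mul_zero]
    rw [eval_sub, eval_X, eval_C, sub_self]
  · intro h
    exact absurd hj0 h

/-- An antidiagonal of a matrix of rank at most `w` which vanishes above it has at most `w` nonzero
entries. -/
lemma card_antidiagonal {w : ℕ} (a c : ℕ → Fin w → K) (D : ℕ) (S : Finset ℕ)
    (hS : ∀ j ∈ S, j ≤ D ∧ ∑ l, a (D - j) l * c j l ≠ 0)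
    (hz : ∀ i j, i + j < D → ∑ l, a i l * c j l = 0) : S.card ≤ w := by
  classical
  have hli : LinearIndependent K (fun j : S => c (j : ℕ)) := by
    rw [Fintype.linearIndependent_iff]
    intro μ hμ
    by_contra hcon
    push Not at hcon
    obtain ⟨j1, hj1⟩ := hcon
    obtain ⟨j0, hj0, hmax⟩ := Finset.exists_max_image
      (Finset.univ.filter fun j : S => μ j ≠ 0) (fun j => (j : ℕ))
      ⟨j1, Finset.mem_filter.2 ⟨Finset.mem_univ _, hj1⟩⟩
    rw [Finset.mem_filter] at hj0
    have h1 : ∑ j : S, μ j * ∑ l, a (D - j0) l * c j l = 0 := by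
      have h2 : ∀ l, ∑ j : S, μ j * c j l = 0 := by
        intro l
        have := congrFun hμ l
        rw [Finset.sum_apply] at this
        simpa using this
      have h3 : ∀ j : S, μ j * ∑ l, a (D - j0) l * c j l = ∑ l, a (D - j0) l * (μ j * c j l) := by
        intro j
        rw [Finset.mul_sum]
        apply Finset.sum_congr rfl
        intro l _
        ring
      rw [Finset.sum_congr rfl fun j _ => h3 j, Finset.sum_comm]
      apply Finset.sum_eq_zero
      intro l _
      rw [← Finset.mul_sum, h2 l, mul_zero]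
    rw [Finset.sum_eq_single j0] at h1
    · rcases mul_eq_zero.1 h1 with h | h
      · exact hj0.2 h
      · exact (hS j0 j0.2).2 h
    · intro j _ hne
      by_cases hj : μ j = 0
      · rw [hj, zero_mul]
      · have h4 : (j : ℕ) ≤ j0 := hmax j (Finset.mem_filter.2 ⟨Finset.mem_univ _, hj⟩)
        have h5 : (j : ℕ) ≠ j0 := fun h => hne (Subtype.ext h)
        have h6 := (hS j0 j0.2).1
        rw [hz (D - j0) j (by omega), mul_zero]
    · intro h
      exact absurd (Finset.mem_univ _) h
  have := hli.fintype_card_le_finrank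
  rwa [Module.finrank_fintype_fun_eq_card, Fintype.card_fin, Fintype.card_coe] at this

/-- Merging two variables: `x ↦ X ^ w`, `y ↦ X ^ w (1 + X)`. -/
theorem pair (p : ℕ) [CharP K p] {w N : ℕ} (a c : Fin w → K[X]) (hp : 2 * N ≤ p)
    (h : X ^ (2 * w * N) ∣ ∑ l, (a l).comp (X ^ w) * (c l).comp (X ^ w * (1 + X))) :
    ∀ i < N, ∀ j < N, ∑ l, (a l).coeff i * (c l).coeff j = 0 := by
  classical
  by_contra hcon
  push Not at hcon
  obtain ⟨i1, hi1, j1, hj1, hne1⟩ := hcon
  obtain ⟨f, hf⟩ : ∃ f : ℕ → ℕ → K, ∀ i j, f i j = ∑ l, (a l).coeff i * (c l).coeff j :=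
    ⟨fun i j => ∑ l, (a l).coeff i * (c l).coeff j, fun _ _ => rfl⟩
  rw [← hf] at hne1
  have hex : ∃ D, ∃ i j, i + j = D ∧ f i j ≠ 0 := ⟨_, i1, j1, rfl, hne1⟩
  obtain ⟨D, hDdef⟩ : ∃ D, D = Nat.find hex := ⟨_, rfl⟩
  have hD1 : ∃ i j, i + j = D ∧ f i j ≠ 0 := by rw [hDdef]; exact Nat.find_spec hex
  have hD2 : ∀ i j, i + j < D → f i j = 0 := by
    intro i j hij
    by_contra hne
    rw [hDdef] at hij
    exact Nat.find_min hex hij ⟨i, j, rfl, hne⟩
  have hD3 : D ≤ i1 + j1 := by rw [hDdef]; exact Nat.find_min' hex ⟨i1, j1, rfl, hne1⟩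
  have hDN : D + 1 < 2 * N := by omega
  obtain ⟨n, hn⟩ : ∃ n, D < n ∧ (∀ l, (a l).natDegree < n) ∧ ∀ l, (c l).natDegree < n := by
    refine ⟨D + 1 + ∑ l, (a l).natDegree + ∑ l, (c l).natDegree, by omega, ?_, ?_⟩
    · intro l
      have := Finset.single_le_sum (f := fun l => (a l).natDegree) (fun _ _ => Nat.zero_le _)
        (Finset.mem_univ l)
      omega
    · intro l
      have := Finset.single_le_sum (f := fun l => (c l).natDegree) (fun _ _ => Nat.zero_le _)
        (Finset.mem_univ l)
      omega
  obtain ⟨hnD, hna, hnc⟩ := hn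
  set F := ∑ l, (a l).comp (X ^ w) * (c l).comp (X ^ w * (1 + X)) with hF
  have hF2 : F = ∑ x ∈ Finset.range n ×ˢ Finset.range n,
      C (f x.1 x.2) * (X ^ (w * (x.1 + x.2)) * (1 + X) ^ x.2) := by
    have e1 : ∀ l, (a l).comp (X ^ w) = ∑ i ∈ Finset.range n, C ((a l).coeff i) * X ^ (w * i) := by
      intro l
      rw [comp, eval₂_eq_sum_range' C (hna l)]
      apply Finset.sum_congr rfl
      intro i _
      rw [← pow_mul]
    have e2 : ∀ l, (c l).comp (X ^ w * (1 + X)) =
        ∑ j ∈ Finset.range n, C ((c l).coeff j) * (X ^ (w * j) * (1 + X) ^ j) := by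
      intro l
      rw [comp, eval₂_eq_sum_range' C (hnc l)]
      apply Finset.sum_congr rfl
      intro j _
      rw [mul_pow, ← pow_mul]
    rw [hF, Finset.sum_product]
    simp only [e1, e2, Finset.sum_mul_sum]
    rw [Finset.sum_comm]
    apply Finset.sum_congr rfl
    intro i _
    rw [Finset.sum_comm]
    apply Finset.sum_congr rfl
    intro j _
    rw [hf, map_sum, Finset.sum_mul]
    apply Finset.sum_congr rfl
    intro l _
    rw [C_mul, mul_add, pow_add]
    ring
  set g : K[X] := ∑ j ∈ Finset.range (D + 1), C (f (D - j) j) * X ^ j with hg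
  have hgc : ∀ j, g.coeff j = if j ≤ D then f (D - j) j else 0 := by
    intro j
    rw [hg, finsetSum_coeff]
    simp only [coeff_C_mul, coeff_X_pow, mul_ite, mul_one, mul_zero]
    rw [Finset.sum_ite_eq]
    simp only [Finset.mem_range, Nat.lt_succ_iff]
  have hgd : g.natDegree ≤ D := by
    rw [natDegree_le_iff_coeff_eq_zero]
    intro j hj
    rw [hgc, if_neg (by omega)]
  have hg0 : g ≠ 0 := by
    obtain ⟨i, j, hij, hne⟩ := hD1
    intro h0
    have h1 := hgc j
    rw [h0, coeff_zero, if_pos (by omega), show D - j = i by omega] at h1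
    exact hne h1.symm
  have hgs : g.support.card ≤ w := by
    apply card_antidiagonal (fun i l => (a l).coeff i) (fun j l => (c l).coeff j) D
    · intro j hj
      rw [mem_support_iff, hgc] at hj
      by_cases hjD : j ≤ D
      · rw [if_pos hjD, hf] at hj
        exact ⟨hjD, hj⟩
      · rw [if_neg hjD] at hj
        exact absurd rfl hj
    · intro i j hij
      have := hD2 i j hij
      rwa [hf] at this
  have hF3 : X ^ (w * (D + 1)) ∣ F - X ^ (w * D) * g.comp (1 + X) := by
    have h1 : X ^ (w * D) * g.comp (1 + X) = ∑ x ∈ Finset.range n ×ˢ Finset.range n with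
        x.1 + x.2 = D, C (f x.1 x.2) * (X ^ (w * (x.1 + x.2)) * (1 + X) ^ x.2) := by
      have h2 : X ^ (w * D) * g.comp (1 + X) = ∑ j ∈ Finset.range (D + 1),
          C (f (D - j) j) * (X ^ (w * D) * (1 + X) ^ j) := by
        rw [hg, Polynomial.sum_comp, Finset.mul_sum]
        apply Finset.sum_congr rfl
        intro j _
        rw [mul_comp, C_comp, pow_comp, X_comp]
        ring
      rw [h2]
      symm
      apply Finset.sum_nbij' (fun x => x.2) (fun j => (D - j, j))
      · intro x hx
        rw [Finset.mem_filter] at hx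
        rw [Finset.mem_range]
        omega
      · intro j hj
        rw [Finset.mem_range] at hj
        rw [Finset.mem_filter, Finset.mem_product, Finset.mem_range, Finset.mem_range]
        simp only
        omega
      · intro x hx
        rw [Finset.mem_filter] at hx
        ext
        · simp only
          omega
        · rfl
      · intro j _
        rfl
      · intro x hx
        rw [Finset.mem_filter] at hx
        have e : D - x.2 = x.1 := by omega
        rw [e, hx.2]
    rw [h1, hF2, ← Finset.sum_filter_add_sum_filter_not (Finset.range n ×ˢ Finset.range n)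
      (fun x => x.1 + x.2 = D), add_sub_cancel_left]
    apply Finset.dvd_sum
    intro x hx
    rw [Finset.mem_filter] at hx
    rcases Nat.lt_or_ge (x.1 + x.2) D with h2 | h2
    · rw [hD2 _ _ h2, C_0, zero_mul]
      exact dvd_zero _
    · apply Dvd.dvd.mul_left
      apply Dvd.dvd.mul_right
      exact pow_dvd_pow _ (Nat.mul_le_mul_left _ (by omega))
  have hF4 : X ^ (w * (D + 1)) ∣ X ^ (w * D) * g.comp (1 + X) := by
    have h1 : X ^ (w * (D + 1)) ∣ F :=
      (pow_dvd_pow _ (by
        calc w * (D + 1) ≤ w * (2 * N) := Nat.mul_le_mul_left _ hDN.le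
          _ = 2 * w * N := by ring)).trans h
    have h2 := dvd_sub h1 hF3
    rwa [sub_sub_cancel] at h2
  have hF5 : X ^ w ∣ g.comp (1 + X) := by
    rw [mul_add, mul_one, pow_add] at hF4
    exact (mul_dvd_mul_iff_left (pow_ne_zero _ X_ne_zero)).1 hF4
  have hF6 : (X - C 1) ^ w ∣ g := by
    obtain ⟨r, hr⟩ := hF5
    refine ⟨r.comp (X - C 1), ?_⟩
    have h1 := congrArg (fun q : K[X] => q.comp (X - C 1)) hr
    simp only [mul_comp, pow_comp, X_comp, comp_assoc, add_comp, one_comp] at h1
    have h2 : (1 + (X - C 1) : K[X]) = X := by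
      rw [C_1]; ring
    rw [h2, comp_X] at h1
    exact h1
  exact sparse_mult p g w hg0 hgs (by omega) hF6

end

end Pool.Agent.Helper12_CW
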