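import Pool.Agent.Helper12_CW.Swap
import Pool.Agent.Helper12_CW.Pair

set_option autoImplicit false

/-!
The order of vanishing of a constant-width read-once program along the curve.
-/

namespace Pool.Agent.Helper12_CW

open Polynomial Matrix

/-- The coordinates of the curve: at each of the `L` levels an index `i` splits into `2 i` and
`2 i + 1`, and a coordinate `u` into `u ^ w` and `u ^ w (1 + u)`. -/
def curve {R : Type} [CommRing R] (w : ℕ) (t : R) : ℕ → ℕ → R
  | 0, _ => t
  | L + 1, i => if i % 2 = 0 then curve w t L (i / 2) ^ w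
      else curve w t L (i / 2) ^ w * (1 + curve w t L (i / 2))

lemma map_curve {R S : Type} [CommRing R] [CommRing S] (f : R →+* S) (w : ℕ) (t : R) (L : ℕ) :
    ∀ i, f (curve w t L i) = curve w (f t) L i := by
  induction L with
  | zero => intro i; rfl
  | succ L ih =>
    intro i
    unfold curve
    split_ifs
    · rw [map_pow, ih]
    · rw [map_mul, map_add, map_one, map_pow, ih]

lemma curve_even {R : Type} [CommRing R] (w : ℕ) (t : R) (L i : ℕ) :
    curve w t (L + 1) (2 * i) = curve w t L i ^ w := by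
  rw [curve, if_pos (by omega), Nat.mul_div_cancel_left _ (by norm_num)]

lemma curve_odd {R : Type} [CommRing R] (w : ℕ) (t : R) (L i : ℕ) :
    curve w t (L + 1) (2 * i + 1) = curve w t L i ^ w * (1 + curve w t L i) := by
  rw [curve, if_neg (by omega)]
  have : (2 * i + 1) / 2 = i := by omega
  rw [this]

section

variable {K : Type} [Field K]

lemma coeff_val_one {w : ℕ} (a z : Fin w → K) (P : Matrix (Fin w) (Fin w) K[X]) (d : ℕ) :
    ((fun i => C (a i)) ⬝ᵥ (P *ᵥ fun i => C (z i))).coeff d =
      a ⬝ᵥ (P.map (fun q => q.coeff d) *ᵥ z) := by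
  simp only [dotProduct, mulVec, finsetSum_coeff, coeff_C_mul, coeff_mul_C, Matrix.map_apply]

theorem order_curve (p : ℕ) [CharP K p] {w : ℕ} (a z : Fin w → K) :
    ∀ (L N : ℕ) (P : ℕ → Matrix (Fin w) (Fin w) K[X]), (2 * w) ^ L * N ≤ p →
    X ^ ((2 * w) ^ L * N) ∣ val (2 ^ L) (fun i => C (a i)) (fun i => C (z i))
      (fun i => (P i).map (fun q => q.comp (curve w X L i))) →
    ∀ d : ℕ → ℕ, (∀ i, d i < N) →
      val (2 ^ L) a z (fun i => (P i).map (fun q => q.coeff (d i))) = 0 := by
  intro L
  induction L with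
  | zero =>
    intro N P _ hdvd d hd
    rw [pow_zero, one_mul, pow_zero, val_one] at hdvd
    rw [pow_zero, val_one, ← coeff_val_one]
    rw [X_pow_dvd_iff] at hdvd
    have := hdvd (d 0) (hd 0)
    unfold curve at this
    simpa using this
  | succ L ih =>
    intro N P hp hdvd d hd
    rcases Nat.eq_zero_or_pos w with rfl | hw
    · -- empty matrices
      unfold val
      rw [dotProduct, Finset.univ_eq_empty, Finset.sum_empty]
    have hN : 0 < N := lt_of_le_of_lt (Nat.zero_le _) (hd 0)
    have hpos : 0 < 2 * w * N := by positivity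
    have hpow : (2 * w) ^ (L + 1) * N = (2 * w) ^ L * (2 * w * N) := by rw [pow_succ]; ring
    have hle : 2 * N ≤ p := by
      refine le_trans ?_ hp
      calc 2 * N ≤ (2 * w) * N := Nat.mul_le_mul_right _ (by omega)
        _ ≤ (2 * w) ^ (L + 1) * N := Nat.mul_le_mul_right _ (Nat.le_self_pow (by omega) _)
    obtain ⟨P', hP'⟩ : ∃ P' : ℕ → Matrix (Fin w) (Fin w) K[X], ∀ i, P' i =
        (P (2 * i)).map (fun q => q.comp (X ^ w)) *
        (P (2 * i + 1)).map (fun q => q.comp (X ^ w * (1 + X))) :=
      ⟨fun i => _, fun i => rfl⟩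
    have hall : ∀ d' : ℕ → Fin (2 * w * N),
        val (2 ^ L) a z (fun i => (P' i).map (fun q => q.coeff (d' i))) = 0 := by
      intro d'
      refine ih (2 * w * N) P' (by rw [← hpow]; exact hp) ?_ (fun i => d' i) (fun i => (d' i).2)
      rw [← hpow]
      convert hdvd using 1
      rw [pow_succ, mul_comm (2 ^ L) 2, val_pair]
      apply val_congr
      intro i _
      rw [hP', curve_even, curve_odd]
      have e1 : ∀ r : K[X], (fun q : K[X] => q.comp r) = (compRingHom r : K[X] → K[X]) := by
        intro r; rfl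
      rw [e1 (curve w X L i), Matrix.map_mul, Matrix.map_map, Matrix.map_map]
      congr 1
      · congr 1
        funext q
        simp only [Function.comp, coe_compRingHom_apply]
        rw [comp_assoc, pow_comp, X_comp]
      · congr 1
        funext q
        simp only [Function.comp, coe_compRingHom_apply]
        rw [comp_assoc, mul_comp, add_comp, pow_comp, X_comp, one_comp]
    have hne : ∀ i : ℕ, Nonempty (Fin (2 * w * N)) := fun _ => ⟨⟨0, hpos⟩⟩
    have key := swap (X := fun _ => Fin N × Fin N) (Y := fun _ => Fin (2 * w * N))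
      (fun i x => (P (2 * i)).map (fun q => q.coeff x.1) *
        (P (2 * i + 1)).map (fun q => q.coeff x.2))
      (fun i y => (P' i).map (fun q => q.coeff y)) (2 ^ L)
      (by
        intro i _ r s h x
        have h1 := pair p (fun l => ∑ k, C (r k) * P (2 * i) k l)
          (fun l => ∑ k, P (2 * i + 1) l k * C (s k)) hle (by
            rw [X_pow_dvd_iff]
            intro y hy
            have h2 := h ⟨y, hy⟩
            rw [← coeff_val_one, hP', ← Matrix.mulVec_mulVec, Matrix.dotProduct_mulVec] at h2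
            rw [← h2]
            congr 1
            rw [dotProduct]
            apply Finset.sum_congr rfl
            intro l _
            congr 1
            · rw [Matrix.vecMul, dotProduct, Polynomial.sum_comp]
              apply Finset.sum_congr rfl
              intro k _
              rw [mul_comp, C_comp, Matrix.map_apply]
            · rw [Matrix.mulVec, dotProduct, Polynomial.sum_comp]
              apply Finset.sum_congr rfl
              intro k _
              rw [mul_comp, C_comp, Matrix.map_apply]) x.1 x.1.2 x.2 x.2.2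
        rw [← Matrix.mulVec_mulVec, Matrix.dotProduct_mulVec, ← h1, dotProduct]
        apply Finset.sum_congr rfl
        intro l _
        congr 1
        · rw [Matrix.vecMul, dotProduct, finsetSum_coeff]
          apply Finset.sum_congr rfl
          intro k _
          rw [coeff_C_mul, Matrix.map_apply]
        · rw [Matrix.mulVec, dotProduct, finsetSum_coeff]
          apply Finset.sum_congr rfl
          intro k _
          rw [coeff_mul_C, Matrix.map_apply]) a z hall
      (fun i => (⟨d (2 * i), hd _⟩, ⟨d (2 * i + 1), hd _⟩))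
    rw [pow_succ, mul_comm (2 ^ L) 2, val_pair]
    exact key

/-! ### Weights -/

/-- The substitution `X_s ↦ X ^ (N ^ c + N ^ s)`. -/
noncomputable def onW {R : Type} [CommRing R] {c : ℕ} (N : ℕ) :
    MvPolynomial (Fin c) R →+* R[X] :=
  MvPolynomial.eval₂Hom C (fun s => X ^ (N ^ c + N ^ (s : ℕ)))

/-- The weight of a monomial. -/
def wt {c : ℕ} (N : ℕ) (d : Fin c →₀ ℕ) : ℕ := ∑ s, d s * (N ^ c + N ^ (s : ℕ))

lemma digits_inj {N : ℕ} : ∀ {c : ℕ} (x y : Fin c → ℕ), (∀ s, x s < N) → (∀ s, y s < N) →
    ∑ s, x s * N ^ (s : ℕ) = ∑ s, y s * N ^ (s : ℕ) → x = y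
  | 0, x, y, _, _, _ => by funext s; exact s.elim0
  | c + 1, x, y, hx, hy, h => by
    have hN : 0 < N := lt_of_le_of_lt (Nat.zero_le _) (hx 0)
    have e : ∀ x : Fin (c + 1) → ℕ, ∑ s, x s * N ^ (s : ℕ) =
        x 0 + N * ∑ s : Fin c, x s.succ * N ^ (s : ℕ) := by
      intro x
      rw [Fin.sum_univ_succ, Finset.mul_sum]
      simp only [Fin.val_zero, pow_zero, mul_one, Fin.val_succ, pow_succ]
      congr 1
      apply Finset.sum_congr rfl
      intro s _
      ring
    rw [e, e] at h
    have h0 : x 0 = y 0 := by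
      have h1 := congrArg (· % N) h
      simp only [Nat.add_mul_mod_self_left] at h1
      rwa [Nat.mod_eq_of_lt (hx 0), Nat.mod_eq_of_lt (hy 0)] at h1
    have h2 : ∑ s : Fin c, x s.succ * N ^ (s : ℕ) = ∑ s : Fin c, y s.succ * N ^ (s : ℕ) := by
      rw [h0] at h
      exact Nat.eq_of_mul_eq_mul_left hN (Nat.add_left_cancel h)
    have h3 := digits_inj (fun s => x s.succ) (fun s => y s.succ) (fun s => hx _) (fun s => hy _) h2
    funext s
    refine Fin.cases h0 (fun s => ?_) s
    exact congrFun h3 s

lemma wt_eq {c : ℕ} (N : ℕ) (d : Fin c →₀ ℕ) :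
    wt N d = N ^ c * d.degree + ∑ s, d s * N ^ (s : ℕ) := by
  unfold wt
  rw [Finsupp.degree_eq_sum, Finset.mul_sum, ← Finset.sum_add_distrib]
  apply Finset.sum_congr rfl
  intro s _
  ring

lemma low_lt {c : ℕ} {N : ℕ} (d : Fin c →₀ ℕ) (hd : d.degree < N) :
    ∑ s, d s * N ^ (s : ℕ) < N ^ c := by
  have hN : 0 < N := lt_of_le_of_lt (Nat.zero_le _) hd
  rcases c with _ | c
  · simp
  · calc ∑ s, d s * N ^ (s : ℕ) ≤ ∑ s, d s * N ^ c := by
          apply Finset.sum_le_sum
          intro s _
          exact Nat.mul_le_mul_left _ (Nat.pow_le_pow_right hN (by omega))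
      _ = d.degree * N ^ c := by rw [← Finset.sum_mul, Finsupp.degree_eq_sum]
      _ < N * N ^ c := Nat.mul_lt_mul_of_pos_right hd (pow_pos hN _)
      _ = N ^ (c + 1) := by rw [pow_succ]; ring

lemma wt_lt {c : ℕ} {N : ℕ} (d : Fin c →₀ ℕ) (hd : d.degree < N) : wt N d < N ^ (c + 1) := by
  rw [wt_eq, pow_succ]
  have h1 := low_lt d hd
  calc N ^ c * d.degree + ∑ s, d s * N ^ (s : ℕ) < N ^ c * d.degree + N ^ c := by omega
    _ = N ^ c * (d.degree + 1) := by ring
    _ ≤ N ^ c * N := Nat.mul_le_mul_left _ hd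

lemma wt_inj {c : ℕ} {N : ℕ} (d d' : Fin c →₀ ℕ) (hd : d.degree < N) (h : wt N d' = wt N d) :
    d' = d := by
  have hN : 0 < N := lt_of_le_of_lt (Nat.zero_le _) hd
  have hNc : 0 < N ^ c := pow_pos hN _
  have hd' : d'.degree < N := by
    have h1 := wt_lt d hd
    rw [← h, wt_eq, pow_succ] at h1
    exact Nat.lt_of_mul_lt_mul_left (lt_of_le_of_lt (Nat.le_add_right _ _) h1)
  have h1 := low_lt d hd
  have h2 := low_lt d' hd'
  rw [wt_eq, wt_eq] at h
  have h3 : d'.degree = d.degree := by
    have h4 := congrArg (· / N ^ c) h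
    simp only [Nat.mul_add_div hNc] at h4
    rwa [Nat.div_eq_of_lt h1, Nat.div_eq_of_lt h2, add_zero, add_zero] at h4
  have h4 : ∑ s, d' s * N ^ (s : ℕ) = ∑ s, d s * N ^ (s : ℕ) := by
    rw [h3] at h
    omega
  have hb : ∀ d : Fin c →₀ ℕ, d.degree < N → ∀ s, d s < N := by
    intro d hd s
    refine lt_of_le_of_lt ?_ hd
    rw [Finsupp.degree_eq_sum]
    exact Finset.single_le_sum (f := fun s => d s) (fun _ _ => Nat.zero_le _) (Finset.mem_univ s)
  have h5 := digits_inj (fun s => d' s) (fun s => d s) (hb d' hd') (hb d hd) h4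
  exact Finsupp.ext (congrFun h5)

lemma coeff_onW {R : Type} [CommRing R] {c : ℕ} {N : ℕ} (G : MvPolynomial (Fin c) R) (d : Fin c →₀ ℕ)
    (hd : d.degree < N) : (onW N G).coeff (wt N d) = G.coeff d := by
  classical
  have h1 : onW N G = ∑ d' ∈ G.support, C (G.coeff d') * X ^ wt N d' := by
    unfold onW
    rw [MvPolynomial.coe_eval₂Hom, MvPolynomial.eval₂_eq']
    apply Finset.sum_congr rfl
    intro d' _
    congr 1
    unfold wt
    rw [← Finset.prod_pow_eq_pow_sum]
    apply Finset.prod_congr rfl
    intro s _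
    rw [← pow_mul, mul_comm]
  rw [h1, finsetSum_coeff]
  simp only [coeff_C_mul, coeff_X_pow, mul_ite, mul_one, mul_zero]
  rw [Finset.sum_eq_single d]
  · rw [if_pos rfl]
  · intro d' _ hne
    rw [if_neg]
    intro h
    exact hne (wt_inj d d' hd h.symm)
  · intro h
    rw [if_pos rfl]
    exact MvPolynomial.notMem_support_iff.1 h

/-- Vanishing along the curve forces the vanishing of all coefficients of low block degrees. -/
theorem low_coeffs (p : ℕ) [CharP K p] {w c k : ℕ} (a z : Fin w → K) (L N : ℕ)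
    (g : ℕ → Fin k → MvPolynomial (Fin c) K) (M : ℕ → Fin k → Matrix (Fin w) (Fin w) K)
    (hp : (2 * w) ^ L * N ^ (c + 1) ≤ p)
    (hdvd : X ^ ((2 * w) ^ L * N ^ (c + 1)) ∣ val (2 ^ L) (fun i => C (a i)) (fun i => C (z i))
      (fun i => ∑ u, ((onW N (g i u)).comp (curve w X L i)) • (M i u).map C))
    (d : ℕ → Fin c →₀ ℕ) (hd : ∀ i, (d i).degree < N) :
    val (2 ^ L) a z (fun i => ∑ u, (g i u).coeff (d i) • M i u) = 0 := by
  have key := order_curve p a z L (N ^ (c + 1)) (fun i => ∑ u, (onW N (g i u)) • (M i u).map C) hp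
    (by
      convert hdvd using 1
      apply val_congr
      intro i _
      ext1 x y
      rw [Matrix.map_apply, Matrix.sum_apply, Matrix.sum_apply, Polynomial.sum_comp]
      apply Finset.sum_congr rfl
      intro u _
      rw [Matrix.smul_apply, Matrix.smul_apply, Matrix.map_apply, smul_eq_mul, smul_eq_mul,
        mul_comp, C_comp]) (fun i => wt N (d i)) (fun i => wt_lt (d i) (hd i))
  rw [← key]
  apply val_congr
  intro i _
  ext1 x y
  rw [Matrix.map_apply, Matrix.sum_apply, Matrix.sum_apply, finsetSum_coeff]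
  apply Finset.sum_congr rfl
  intro u _
  rw [Matrix.smul_apply, Matrix.smul_apply, Matrix.map_apply, smul_eq_mul, smul_eq_mul,
    coeff_mul_C, coeff_onW _ _ (hd i)]

end

end Pool.Agent.Helper12_CW
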