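import Pool.Agent.Helper12_CW.Block
import Pool.Agent.Helper12_CW.Curve
import Pool.Agent.Helper78_ACIT.Prime

set_option autoImplicit false

/-!
The whole program: choice of the point and of the prime.
-/

namespace Pool.Agent.Helper12_CW

open Polynomial Matrix Pool.Agent.Helper12_FV

lemma dot_sum {R : Type} [CommRing R] {w : ℕ} {ι : Type} (S : Finset ι) (G : ι → R)
    (N : ι → Matrix (Fin w) (Fin w) R) (r s : Fin w → R) :
    r ⬝ᵥ ((∑ u ∈ S, G u • N u) *ᵥ s) = ∑ u ∈ S, G u * (r ⬝ᵥ (N u *ᵥ s)) := by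
  rw [Matrix.sum_mulVec, dotProduct_sum]
  apply Finset.sum_congr rfl
  intro u _
  rw [Matrix.smul_mulVec, dotProduct_smul, smul_eq_mul]

lemma val_pad {R : Type} [CommRing R] {w : ℕ} (n : ℕ) (a z : Fin w → R)
    (M : ℕ → Matrix (Fin w) (Fin w) R) (j : ℕ) (h : ∀ i, n ≤ i → M i = 1) :
    val (n + j) a z M = val n a z M := by
  induction j with
  | zero => rfl
  | succ j ih =>
    rw [← add_assoc, val_succ, h (n + j) (Nat.le_add_right _ _), Matrix.one_mulVec, ih]

lemma natAbs_val_le {w : ℕ} (E Ea : ℕ) (a : Fin w → ℤ) (ha : ∀ i, (a i).natAbs ≤ Ea)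
    (M : ℕ → Matrix (Fin w) (Fin w) ℤ) (n : ℕ) (hM : ∀ B < n, ∀ i j, (M B i j).natAbs ≤ E) :
    ∀ (Ez : ℕ) (z : Fin w → ℤ), (∀ i, (z i).natAbs ≤ Ez) →
      (val n a z M).natAbs ≤ w * (Ea * ((w * E) ^ n * Ez)) := by
  have hsum : ∀ (x y : Fin w → ℤ) (e1 e2 : ℕ), (∀ i, (x i).natAbs ≤ e1) →
      (∀ i, (y i).natAbs ≤ e2) → (x ⬝ᵥ y).natAbs ≤ w * (e1 * e2) := by
    intro x y e1 e2 h1 h2
    unfold dotProduct
    refine (natAbs_sum_le _ _).trans ?_
    refine (Finset.sum_le_sum (g := fun _ => e1 * e2) fun i _ => ?_).trans (by simp)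
    rw [Int.natAbs_mul]
    exact Nat.mul_le_mul (h1 i) (h2 i)
  induction n with
  | zero =>
    intro Ez z hz
    rw [val_zero, pow_zero, one_mul]
    exact hsum a z Ea Ez ha hz
  | succ n ih =>
    intro Ez z hz
    rw [val_succ]
    refine (ih (fun B hB => hM B (Nat.lt_succ_of_lt hB)) (w * (E * Ez)) (M n *ᵥ z) ?_).trans
      (le_of_eq ?_)
    · intro i
      exact hsum _ _ E Ez (fun j => hM n (Nat.lt_succ_self n) i j) hz
    · rw [pow_succ]
      ring

/-- A nonzero polynomial in any number of variables has a small point. -/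
lemma exists_pt (F : MvPolynomial ℕ ℤ) (hF : F ≠ 0) (M : ℕ) (hM : F.totalDegree ≤ M) :
    ∃ x : ℕ → ℤ, (∀ i, (x i).natAbs ≤ M) ∧ MvPolynomial.eval x F ≠ 0 := by
  classical
  obtain ⟨n, f, hf, q, rfl⟩ := MvPolynomial.exists_fin_rename F
  have hq : q ≠ 0 := by
    rintro rfl
    exact hF (map_zero _)
  have hdeg : q.totalDegree ≤ M := by
    refine le_trans ?_ hM
    rw [MvPolynomial.totalDegree, MvPolynomial.totalDegree,
      MvPolynomial.support_rename_of_injective hf]
    rw [Finset.sup_image]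
    apply Finset.sup_mono_fun
    intro d _
    simp only [Function.comp]
    rw [Finsupp.sum_mapDomain_index (fun _ => rfl) (fun _ _ _ => rfl)]
  obtain ⟨y, hy, hy0⟩ := Helper12_FV.exists_point q hq (Finset.Icc (0 : ℤ) M) (by
    rw [Int.card_Icc]
    omega)
  refine ⟨fun i => if h : ∃ j, f j = i then y h.choose else 0, ?_, ?_⟩
  · intro i
    by_cases h : ∃ j, f j = i
    · simp only [dif_pos h]
      have := Finset.mem_Icc.1 (hy h.choose)
      omega
    · simp only [dif_neg h]
      simp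
  · rw [MvPolynomial.eval_rename]
    have h1 : (fun i => if h : ∃ j, f j = i then y h.choose else 0) ∘ f = y := by
      funext j
      have h : ∃ j', f j' = f j := ⟨j, rfl⟩
      simp only [Function.comp, dif_pos h]
      rw [hf h.choose_spec]
    rw [h1]
    exact hy0

/-- The polynomial `g` in the variables of the block `B`. -/
noncomputable def ren {c : ℕ} (B : ℕ) : MvPolynomial (Fin c) ℤ →+* MvPolynomial ℕ ℤ :=
  (MvPolynomial.rename (fun s : Fin c => B * c + s)).toRingHom

lemma ren_apply {c : ℕ} (B : ℕ) (g : MvPolynomial (Fin c) ℤ) :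
    ren B g = MvPolynomial.rename (fun s : Fin c => B * c + s) g := rfl

lemma ren_ne_zero {c : ℕ} (B : ℕ) {g : MvPolynomial (Fin c) ℤ} (hg : g ≠ 0) : ren B g ≠ 0 := by
  rw [ren_apply]
  intro h
  apply hg
  apply MvPolynomial.rename_injective (fun s : Fin c => B * c + s)
  · intro s s' h
    simp only [Nat.add_left_cancel_iff] at h
    exact Fin.ext h
  · rw [h, map_zero]

lemma eval_ren {c : ℕ} (B : ℕ) (x : ℕ → ℤ) (g : MvPolynomial (Fin c) ℤ) :
    MvPolynomial.eval x (ren B g) = MvPolynomial.eval (fun s : Fin c => x (B * c + s)) g := by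
  rw [ren_apply, MvPolynomial.eval_rename]
  rfl

/-- The program. -/
noncomputable def prog {c k w : ℕ} (n : ℕ) (a z : Fin w → ℤ)
    (g : ℕ → Fin k → MvPolynomial (Fin c) ℤ) (M : ℕ → Fin k → Matrix (Fin w) (Fin w) ℤ) :
    MvPolynomial ℕ ℤ :=
  val n (fun i => MvPolynomial.C (a i)) (fun i => MvPolynomial.C (z i))
    (fun B => ∑ u, (ren B (g B u)) • (M B u).map MvPolynomial.C)

lemma totalDegree_val_le {w : ℕ} (E : ℕ) (a : Fin w → ℤ)
    (M : ℕ → Matrix (Fin w) (Fin w) (MvPolynomial ℕ ℤ)) (n : ℕ)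
    (hM : ∀ B < n, ∀ i j, (M B i j).totalDegree ≤ E) :
    ∀ (Ez : ℕ) (z : Fin w → MvPolynomial ℕ ℤ), (∀ i, (z i).totalDegree ≤ Ez) →
      (val n (fun i => MvPolynomial.C (a i)) z M).totalDegree ≤ n * E + Ez := by
  induction n with
  | zero =>
    intro Ez z hz
    rw [val_zero, zero_mul, zero_add]
    unfold dotProduct
    apply MvPolynomial.totalDegree_finsetSum_le
    intro i _
    refine (MvPolynomial.totalDegree_mul _ _).trans ?_
    rw [MvPolynomial.totalDegree_C, zero_add]
    exact hz i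
  | succ n ih =>
    intro Ez z hz
    rw [val_succ]
    refine (ih (fun B hB => hM B (Nat.lt_succ_of_lt hB)) (E + Ez) (M n *ᵥ z) ?_).trans
      (le_of_eq (by ring))
    intro i
    rw [mulVec, dotProduct]
    apply MvPolynomial.totalDegree_finsetSum_le
    intro j _
    exact (MvPolynomial.totalDegree_mul _ _).trans
      (add_le_add (hM n (Nat.lt_succ_self n) i j) (hz j))

section hit

variable {c : ℕ}

/-- The size of the certificate. -/
def LT (n k w b v DH : ℕ) : ℕ := w + 2 * b + n * (w + (k + (b + v) * DH + b))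

theorem exists_hit (n m k D b B w L N M1 M2 v1 v2 ε Rb : ℕ) (hn : 1 ≤ n)
    (f : ℕ → Fin m → MvPolynomial (Fin c) ℤ) (A : ℕ → Fin k → MvPolynomial (Fin c) ℤ)
    (e : ℕ → Fin k → Fin m → ℕ) (M : ℕ → Fin k → Matrix (Fin w) (Fin w) ℤ) (a z : Fin w → ℤ)
    (hprim : ∀ B j, ∀ t : ℤ, MvPolynomial.C t ∣ f B j → IsUnit t)
    (hfD : ∀ B j, (f B j).totalDegree ≤ D) (hAD : ∀ B i, (A B i).totalDegree ≤ D)
    (hfl : ∀ B j, len (f B j) ≤ 2 ^ b) (hAl : ∀ B i, len (A B i) ≤ 2 ^ b)
    (he : ∀ B i j, e B i j ≤ 2 ^ b) (hM : ∀ B u i j, (M B u i j).natAbs ≤ 2 ^ b)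
    (ha : ∀ i, (a i).natAbs ≤ 2 ^ b) (hz : ∀ i, (z i).natAbs ≤ 2 ^ b)
    (hB1 : k * (D + k * (m * D)) ≤ B)
    (hM1 : n * (m * D + m * D * (m * D) * (2 * D * D)) ≤ M1) (hM1' : 1 ≤ M1)
    (hv1 : 2 * M1 ≤ 2 ^ v1) (hε : b + v1 * D + 2 * D ≤ ε)
    (hM2 : n * (D + k * B * (m * D)) + n * (m * D) ≤ M2) (hM2' : 1 ≤ M2)
    (hv2 : 2 * M2 ≤ 2 ^ v2)
    (hRb1 : B < Rb)
    (hRb2 : m * D + m * D * (m * D) * (2 * D * D) + (D + k * B * (m * D)) < Rb)
    (hRb3 : (2 * w) ^ L * N ^ (c + 1) ≤ Rb) (hN : B + k ≤ N) (hL : n ≤ 2 ^ L)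
    (hne : prog n a z (fun B u => A B u * ∏ j, f B j ^ e B u j) M ≠ 0) :
    ∃ p, p.Prime ∧ p ≤ 64 * (Rb * Rb + LT n k w b (v2 * D) (1 + k * B * (m * D)) +
        n * LB k (m * D) D (m + D + b) ε B + 1) ^ 2 ∧
      ∃ α : Fin c → ZMod p, ¬ (X : (ZMod p)[X]) ^ ((2 * w) ^ L * N ^ (c + 1)) ∣
        val n (fun i => C ((a i : ℤ) : ZMod p)) (fun i => C ((z i : ℤ) : ZMod p))
          (fun B => ∑ u, ((onW N (sh α (A B u * ∏ j, f B j ^ e B u j))).comp (curve w X L B)) •
            (M B u).map (fun x : ℤ => C (x : ZMod p))) := by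
  classical
  have hblock := fun B' => block m k D b B (f B') (A B') (e B') (hprim B') (hfD B') (hAD B')
    (hfl B') (hAl B') (he B') hB1
  choose κ Cf h P1 P2 hg hhdeg hhsize hP1 hP1deg hrest using hblock
  -- there is at least one term
  have hk : 0 < k := by
    rcases Nat.eq_zero_or_pos k with rfl | hk
    · exfalso
      apply hne
      obtain ⟨n', rfl⟩ : ∃ n', n = n' + 1 := ⟨n - 1, by omega⟩
      unfold prog
      rw [val_succ']
      simp
    · exact hk
  have : Nonempty (Fin k) := ⟨⟨0, hk⟩⟩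
  -- a nonzero reduced program
  obtain ⟨F, hFdef⟩ : ∃ F : (ℕ → Fin k) → MvPolynomial ℕ ℤ, ∀ q, F q =
      val n (fun i => MvPolynomial.C (a i)) (fun i => MvPolynomial.C (z i))
        (fun B' => ∑ u with κ B' u = q B', (ren B' (h B' u)) • (M B' u).map MvPolynomial.C) :=
    ⟨fun q => _, fun q => rfl⟩
  obtain ⟨q, hq⟩ : ∃ q, F q ≠ 0 := by
    by_contra hcon
    push Not at hcon
    apply hne
    refine swap (X := fun _ => Unit) (Y := fun _ => Fin k)
      (fun B' _ => ∑ u, (ren B' (A B' u * ∏ j, f B' j ^ e B' u j)) • (M B' u).map MvPolynomial.C)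
      (fun B' y => ∑ u with κ B' u = y, (ren B' (h B' u)) • (M B' u).map MvPolynomial.C) n ?_ _ _
      (fun q => by rw [← hFdef, hcon]) (fun _ => ())
    intro B' _ r s hy _
    rw [dot_sum, ← Finset.sum_fiberwise_of_maps_to (t := Finset.univ) (g := κ B')
      (fun u _ => Finset.mem_univ _)]
    apply Finset.sum_eq_zero
    intro y _
    have h1 := hy y
    rw [dot_sum] at h1
    have h2 : ∀ u ∈ Finset.univ.filter (fun u => κ B' u = y),
        ren B' (A B' u * ∏ j, f B' j ^ e B' u j) * (r ⬝ᵥ ((M B' u).map MvPolynomial.C *ᵥ s)) =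
        ren B' (Cf B' y) * (ren B' (h B' u) * (r ⬝ᵥ ((M B' u).map MvPolynomial.C *ᵥ s))) := by
      intro u hu
      rw [Finset.mem_filter] at hu
      rw [hg, hu.2, map_mul, mul_assoc]
    rw [Finset.sum_congr rfl h2, ← Finset.mul_sum, h1, mul_zero]
  -- the evaluation point
  have hf0 : ∀ B' j, f B' j ≠ 0 := by
    intro B' j h0
    have := hprim B' j 0 (by rw [h0]; exact dvd_zero _)
    exact not_isUnit_zero this
  obtain ⟨x, hxM, hx⟩ := exists_pt (F q * ∏ B' ∈ Finset.range n, ∏ j, ren B' (f B' j))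
    (mul_ne_zero hq (Finset.prod_ne_zero_iff.2 fun B' _ => Finset.prod_ne_zero_iff.2 fun j _ =>
      ren_ne_zero B' (hf0 B' j))) M2 (by
      refine le_trans ?_ hM2
      refine (MvPolynomial.totalDegree_mul _ _).trans (add_le_add ?_ ?_)
      · rw [hFdef]
        refine (totalDegree_val_le (D + k * B * (m * D)) a _ n ?_ 0 _ ?_).trans (le_of_eq
          (add_zero _))
        · intro B' _ i j
          rw [Matrix.sum_apply]
          apply MvPolynomial.totalDegree_finsetSum_le
          intro u _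
          rw [Matrix.smul_apply, Matrix.map_apply, smul_eq_mul]
          refine (MvPolynomial.totalDegree_mul _ _).trans ?_
          rw [MvPolynomial.totalDegree_C, add_zero]
          exact (MvPolynomial.totalDegree_rename_le _ _).trans (hhdeg B' u)
        · intro i
          rw [MvPolynomial.totalDegree_C]
      · refine (MvPolynomial.totalDegree_finsetProd _ _).trans ?_
        refine (Finset.sum_le_sum (g := fun _ => m * D) fun B' _ => ?_).trans (by simp)
        refine (MvPolynomial.totalDegree_finsetProd _ _).trans ?_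
        refine (Finset.sum_le_sum (g := fun _ => D) fun j _ => ?_).trans (by simp)
        exact (MvPolynomial.totalDegree_rename_le _ _).trans (hfD B' j))
  rw [map_mul] at hx
  obtain ⟨xb, hxb⟩ : ∃ xb : ℕ → Fin c → ℤ, ∀ B', xb B' = fun s : Fin c => x (B' * c + s) :=
    ⟨_, fun _ => rfl⟩
  have hxf : ∀ B' < n, ∀ j, MvPolynomial.eval (xb B') (f B' j) ≠ 0 := by
    intro B' hB' j
    have h1 := right_ne_zero_of_mul hx
    rw [map_prod] at h1
    have h2 := Finset.prod_ne_zero_iff.1 h1 B' (Finset.mem_range.2 hB')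
    rw [map_prod] at h2
    have h3 := Finset.prod_ne_zero_iff.1 h2 j (Finset.mem_univ j)
    rw [eval_ren] at h3
    rw [hxb]
    exact h3
  obtain ⟨T, hTdef⟩ : ∃ T : ℤ, T = MvPolynomial.eval x (F q) := ⟨_, rfl⟩
  have hT0 : T ≠ 0 := by
    rw [hTdef]
    exact left_ne_zero_of_mul hx
  have hTval : T = val n a z (fun B' => ∑ u with κ B' u = q B',
      (MvPolynomial.eval (xb B') (h B' u)) • M B' u) := by
    rw [hTdef, hFdef, map_val]
    simp only [MvPolynomial.eval_C]
    apply val_congr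
    intro B' _
    ext i j
    rw [Matrix.map_apply, Matrix.sum_apply, Matrix.sum_apply, map_sum]
    apply Finset.sum_congr rfl
    intro u _
    rw [Matrix.smul_apply, Matrix.smul_apply, Matrix.map_apply, smul_eq_mul, smul_eq_mul, map_mul,
      MvPolynomial.eval_C, eval_ren, hxb]
  have hTle : T.natAbs ≤ 2 ^ LT n k w b (v2 * D) (1 + k * B * (m * D)) := by
    rw [hTval]
    refine (natAbs_val_le (k * (2 ^ ((b + v2 * D) * (1 + k * B * (m * D))) * 2 ^ b)) (2 ^ b) a ha _
      n ?_ (2 ^ b) z hz).trans ?_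
    · intro B' hB' i j
      rw [Matrix.sum_apply]
      refine (natAbs_sum_le _ _).trans ?_
      refine (Finset.sum_le_sum (g := fun _ =>
        2 ^ ((b + v2 * D) * (1 + k * B * (m * D))) * 2 ^ b) fun u _ => ?_).trans ?_
      · rw [Matrix.smul_apply, smul_eq_mul, Int.natAbs_mul]
        apply Nat.mul_le_mul _ (hM B' u i j)
        refine hhsize B' M2 v2 hM2' hv2 (xb B') (fun s => ?_) (hxf B' hB') u
        rw [hxb]
        exact hxM _
      · rw [Finset.sum_const, smul_eq_mul]
        apply Nat.mul_le_mul_right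
        exact (Finset.card_le_univ _).trans (by rw [Fintype.card_fin])
    · unfold LT
      have e1 : w ≤ 2 ^ w := Nat.lt_two_pow_self.le
      have e2 : k ≤ 2 ^ k := Nat.lt_two_pow_self.le
      calc w * (2 ^ b * ((w * (k * (2 ^ ((b + v2 * D) * (1 + k * B * (m * D))) * 2 ^ b))) ^ n
            * 2 ^ b))
          ≤ 2 ^ w * (2 ^ b * ((2 ^ w * (2 ^ k * (2 ^ ((b + v2 * D) * (1 + k * B * (m * D)))
            * 2 ^ b))) ^ n * 2 ^ b)) := by
            apply Nat.mul_le_mul e1
            apply Nat.mul_le_mul_left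
            apply Nat.mul_le_mul_right
            apply Nat.pow_le_pow_left
            apply Nat.mul_le_mul e1
            exact Nat.mul_le_mul_right _ e2
        _ = 2 ^ (w + 2 * b + n * (w + (k + (b + v2 * D) * (1 + k * B * (m * D)) + b))) := by
            rw [← pow_add, ← pow_add, ← pow_add, ← pow_mul, ← pow_add, ← pow_add, ← pow_add]
            congr 1
            ring
  -- the common point and direction
  have hsmall : ∀ y : Fin c → ℤ, (∀ s, y s ∈ Finset.Icc (0 : ℤ) M1) → ∀ s, (y s).natAbs ≤ M1 := by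
    intro y hy s
    have := Finset.mem_Icc.1 (hy s)
    omega
  obtain ⟨β, hβS, hβ⟩ := Helper12_FV.exists_point (∏ B' ∈ Finset.range n, P1 B')
    (Finset.prod_ne_zero_iff.2 fun B' _ => hP1 B') (Finset.Icc (0 : ℤ) M1) (by
      rw [Int.card_Icc]
      have h1 : (∏ B' ∈ Finset.range n, P1 B').totalDegree ≤ M1 := by
        refine le_trans ?_ hM1
        refine (MvPolynomial.totalDegree_finsetProd _ _).trans ?_
        refine (Finset.sum_le_sum (g := fun _ => m * D + m * D * (m * D) * (2 * D * D))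
          fun B' _ => ?_).trans (by simp)
        exact (hP1deg B').trans (Nat.le_add_right _ _)
      omega)
  have hβ' : ∀ B' < n, MvPolynomial.eval β (P1 B') ≠ 0 := by
    rw [map_prod] at hβ
    intro B' hB'
    exact Finset.prod_ne_zero_iff.1 hβ B' (Finset.mem_range.2 hB')
  obtain ⟨α, hαS, hα⟩ := Helper12_FV.exists_point (∏ B' ∈ Finset.range n, P2 B' β)
    (Finset.prod_ne_zero_iff.2 fun B' hB' => (hrest B' β (hβ' B' (Finset.mem_range.1 hB'))).1)
    (Finset.Icc (0 : ℤ) M1) (by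
      rw [Int.card_Icc]
      have h1 : (∏ B' ∈ Finset.range n, P2 B' β).totalDegree ≤ M1 := by
        refine le_trans ?_ hM1
        refine (MvPolynomial.totalDegree_finsetProd _ _).trans ?_
        refine (Finset.sum_le_sum (g := fun _ => m * D + m * D * (m * D) * (2 * D * D))
          fun B' hB' => ?_).trans (by simp)
        exact (hrest B' β (hβ' B' (Finset.mem_range.1 hB'))).2.1
      omega)
  have hα' : ∀ B' < n, MvPolynomial.eval α (P2 B' β) ≠ 0 := by
    rw [map_prod] at hα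
    intro B' hB'
    exact Finset.prod_ne_zero_iff.1 hα B' (Finset.mem_range.2 hB')
  have hbads : ∀ B' : Fin n, _ := fun B' => (hrest B' β (hβ' B' B'.2)).2.2 α (hα' B' B'.2) M1 v1 ε
    hM1' hv1 hε (hsmall α hαS) (hsmall β hβS)
  choose bad hbad0 hbadle hbad using hbads
  -- the prime
  set NB : ℕ := Rb.factorial * T.natAbs * ∏ B', bad B' with hNB
  have hNBne : NB ≠ 0 := by
    rw [hNB]
    exact mul_ne_zero (mul_ne_zero (Nat.factorial_ne_zero _) (Int.natAbs_ne_zero.2 hT0))
      (Finset.prod_ne_zero_iff.2 fun B' _ => hbad0 B')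
  have hNBle : NB ≤ 2 ^ (Rb * Rb + LT n k w b (v2 * D) (1 + k * B * (m * D)) +
      n * LB k (m * D) D (m + D + b) ε B) := by
    rw [hNB, pow_add, pow_add]
    apply Nat.mul_le_mul (Nat.mul_le_mul ?_ hTle)
    · calc ∏ B', bad B' ≤ ∏ _B' : Fin n, 2 ^ LB k (m * D) D (m + D + b) ε B :=
            Finset.prod_le_prod' fun B' _ => hbadle B'
        _ = 2 ^ (n * LB k (m * D) D (m + D + b) ε B) := by
            rw [Finset.prod_const, Finset.card_univ, Fintype.card_fin, ← pow_mul, mul_comm]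
    · calc Rb.factorial ≤ Rb ^ Rb := Nat.factorial_le_pow Rb
        _ ≤ (2 ^ Rb) ^ Rb := Nat.pow_le_pow_left Nat.lt_two_pow_self.le _
        _ = 2 ^ (Rb * Rb) := by rw [← pow_mul]
  obtain ⟨p, hp, hple, hpnd⟩ := Helper78_ACIT.exists_prime_not_dvd NB _ hNBne hNBle
  have : Fact p.Prime := ⟨hp⟩
  refine ⟨p, hp, hple, fun s => (α s : ZMod p), ?_⟩
  have hRp : Rb < p := by
    by_contra hcon
    push Not at hcon
    apply hpnd
    rw [hNB, mul_assoc]
    exact (hp.dvd_factorial.2 hcon).mul_right _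
  have hTp : ((T : ℤ) : ZMod p) ≠ 0 := by
    intro h0
    rw [ZMod.intCast_zmod_eq_zero_iff_dvd, Int.natCast_dvd] at h0
    apply hpnd
    rw [hNB]
    exact ((h0.mul_left _)).mul_right _
  have hbadp : ∀ B', ¬ p ∣ bad B' := by
    intro B' h0
    apply hpnd
    rw [hNB]
    exact (h0.trans (Finset.dvd_prod_of_mem bad (Finset.mem_univ B'))).mul_left _
  intro hdvd
  -- low coefficients vanish
  obtain ⟨G, hG⟩ : ∃ G : ℕ → Fin k → MvPolynomial (Fin c) (ZMod p), ∀ B' u, G B' u =
      if B' < n then sh (fun s => (α s : ZMod p)) (A B' u * ∏ j, f B' j ^ e B' u j)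
      else if u = ⟨0, hk⟩ then 1 else 0 := ⟨fun B' u => _, fun B' u => rfl⟩
  obtain ⟨M', hM'⟩ : ∃ M' : ℕ → Fin k → Matrix (Fin w) (Fin w) (ZMod p), ∀ B' u, M' B' u =
      if B' < n then (M B' u).map (fun x : ℤ => (x : ZMod p)) else 1 :=
    ⟨fun B' u => _, fun B' u => rfl⟩
  have hlow : ∀ d : ℕ → Fin c →₀ ℕ, (∀ i, (d i).degree < N) →
      val (2 ^ L) (fun i => ((a i : ℤ) : ZMod p)) (fun i => ((z i : ℤ) : ZMod p))
        (fun i => ∑ u, (G i u).coeff (d i) • M' i u) = 0 := by
    apply low_coeffs p _ _ L N G M' (hRb3.trans hRp.le)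
    convert hdvd using 1
    obtain ⟨j, hj⟩ : ∃ j, 2 ^ L = n + j := ⟨2 ^ L - n, by omega⟩
    rw [hj, val_pad]
    · apply val_congr
      intro B' hB'
      apply Finset.sum_congr rfl
      intro u _
      rw [hG, if_pos hB', hM', if_pos hB']
      congr 1
    · intro B' hB'
      rw [Finset.sum_eq_single ⟨0, hk⟩]
      · rw [hG, if_neg (by omega), if_pos rfl, hM', if_neg (by omega), map_one, one_comp, one_smul,
          Matrix.map_one _ C_0 C_1]
      · intro u _ hu
        rw [hG, if_neg (by omega), if_neg hu, map_zero, zero_comp, zero_smul]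
      · intro h0
        exact absurd (Finset.mem_univ _) h0
  have hN0 : 0 < N := by omega
  have hY : Nonempty {d : Fin c →₀ ℕ // d.degree < N} := ⟨⟨0, by simpa using hN0⟩⟩
  have key := @swap (ZMod p) _ w (fun _ => Unit) (fun _ => {d : Fin c →₀ ℕ // d.degree < N})
    (fun _ => hY)
    (fun B' _ => ∑ u with κ B' u = q B', ((MvPolynomial.eval (xb B') (h B' u) : ℤ) : ZMod p) •
      (M B' u).map (fun x : ℤ => (x : ZMod p)))
    (fun B' d => ∑ u, (G B' u).coeff (d : Fin c →₀ ℕ) • M' B' u) n ?_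
    (fun i => ((a i : ℤ) : ZMod p)) (fun i => ((z i : ℤ) : ZMod p)) ?_ (fun _ => ())
  · apply hTp
    rw [hTval]
    have h1 := map_val (Int.castRingHom (ZMod p)) n a z (fun B' => ∑ u with κ B' u = q B',
      (MvPolynomial.eval (xb B') (h B' u)) • M B' u)
    rw [eq_intCast] at h1
    rw [h1, ← key]
    simp only [eq_intCast]
    apply val_congr
    intro B' _
    ext i j
    rw [Matrix.map_apply, Matrix.sum_apply, Matrix.sum_apply, map_sum]
    apply Finset.sum_congr rfl
    intro u _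
    rw [Matrix.smul_apply, Matrix.smul_apply, Matrix.map_apply, smul_eq_mul, smul_eq_mul, map_mul,
      eq_intCast, eq_intCast]
  · intro B' hB' r s hy _
    have h1 := hbad ⟨B', hB'⟩ p (hbadp _) (lt_trans hRb1 hRp) (lt_trans hRb2 hRp) N hN
      (fun u => r ⬝ᵥ (M' B' u *ᵥ s)) (by
        intro d hd
        have h2 := hy ⟨d, hd⟩
        rw [dot_sum] at h2
        refine Eq.trans ?_ h2
        apply Finset.sum_congr rfl
        intro u _
        rw [hG, if_pos hB', mul_comm]) (q B')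
    have h2 := congrArg (MvPolynomial.eval (fun s => ((xb B' s : ℤ) : ZMod p) - (α s : ZMod p))) h1
    rw [map_sum, map_zero] at h2
    rw [dot_sum]
    refine Eq.trans ?_ h2
    apply Finset.sum_congr rfl
    intro u _
    rw [map_mul, MvPolynomial.eval_C, eval_sh, eval₂_cast, hM', if_pos hB', mul_comm]
  · intro d
    have h1 := hlow (fun i => (d i : Fin c →₀ ℕ)) (fun i => (d i).2)
    rw [← h1]
    obtain ⟨j, hj⟩ : ∃ j, 2 ^ L = n + j := ⟨2 ^ L - n, by omega⟩
    -- the padding is not visible only if the exponents there are zero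
    have h2 := hlow (fun i => if i < n then (d i : Fin c →₀ ℕ) else 0) (fun i => by
      by_cases hi : i < n
      · rw [if_pos hi]; exact (d i).2
      · rw [if_neg hi]; simpa using hN0)
    rw [h1, ← h2, hj, val_pad]
    · apply val_congr
      intro i hi
      rw [if_pos hi]
    · intro i hi
      rw [if_neg (by omega), Finset.sum_eq_single ⟨0, hk⟩]
      · rw [hG, if_neg (by omega), if_pos rfl, hM', if_neg (by omega), MvPolynomial.coeff_zero_one,
          one_smul]
      · intro u _ hu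
        rw [hG, if_neg (by omega), if_neg hu, MvPolynomial.coeff_zero, zero_smul]
      · intro h0
        exact absurd (Finset.mem_univ _) h0

end hit

end Pool.Agent.Helper12_CW
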