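import Pool.Agent.Helper12_FV.Main

set_option autoImplicit false

/-!
Modulo a good prime, if a combination of the terms of a block vanishes to high order at the point
`α`, then all the reduced class sums vanish.
-/

namespace Pool.Agent.Helper12_CW

open Polynomial Pool.Agent.Helper12_D3 Pool.Agent.Helper12_FV

variable {c : ℕ}

/-- Translation to the point `α`. -/
noncomputable def sh {R : Type} [CommRing R] (α : Fin c → R) :
    MvPolynomial (Fin c) ℤ →+* MvPolynomial (Fin c) R :=
  MvPolynomial.eval₂Hom (Int.castRingHom _) (fun s => MvPolynomial.C (α s) + MvPolynomial.X s)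

/-- Restriction to the direction `β`. -/
noncomputable def dir {R : Type} [CommRing R] (β : Fin c → R) :
    MvPolynomial (Fin c) R →+* R[X] :=
  MvPolynomial.eval₂Hom C (fun s => C (β s) * X)

lemma dir_sh {R : Type} [CommRing R] (α β : Fin c → R) (f : MvPolynomial (Fin c) ℤ) :
    dir β (sh α f) = onl α β f := by
  have h : (dir β).comp (sh α) = onl α β := by
    apply MvPolynomial.ringHom_ext
    · intro z
      simp
    · intro s
      rw [onl_X]
      simp [sh, dir]
  exact RingHom.congr_fun h f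

lemma dir_dvd {R : Type} [CommRing R] (β : Fin c → R) (P : MvPolynomial (Fin c) R) (N : ℕ)
    (h : ∀ d : Fin c →₀ ℕ, d.degree < N → P.coeff d = 0) : X ^ N ∣ dir β P := by
  unfold dir
  rw [MvPolynomial.coe_eval₂Hom, MvPolynomial.eval₂_eq']
  apply Finset.dvd_sum
  intro d hd
  rw [MvPolynomial.mem_support_iff] at hd
  have h1 : N ≤ d.degree := by
    by_contra hcon
    exact hd (h d (by omega))
  apply Dvd.dvd.mul_left
  have h2 : ∏ s, (C (β s) * X : R[X]) ^ d s = (∏ s, C (β s) ^ d s) * X ^ d.degree := by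
    rw [Finsupp.degree_eq_sum, ← Finset.prod_pow_eq_pow_sum, ← Finset.prod_mul_distrib]
    apply Finset.prod_congr rfl
    intro s _
    rw [mul_pow]
  rw [h2]
  exact (pow_dvd_pow X h1).mul_left _

lemma eval_dir {R : Type} [CommRing R] (β : Fin c → R) (P : MvPolynomial (Fin c) R) :
    (dir β P).eval 1 = MvPolynomial.eval β P := by
  have h : (evalRingHom (1 : R)).comp (dir β) = MvPolynomial.eval β := by
    apply MvPolynomial.ringHom_ext
    · intro z
      simp [dir]
    · intro s
      simp [dir]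
  exact RingHom.congr_fun h P

lemma eval_sh {R : Type} [CommRing R] (α x : Fin c → R) (f : MvPolynomial (Fin c) ℤ) :
    MvPolynomial.eval (fun s => x s - α s) (sh α f) =
      MvPolynomial.eval₂ (Int.castRingHom R) x f := by
  have h : (MvPolynomial.eval (fun s => x s - α s)).comp (sh α) =
      MvPolynomial.eval₂Hom (Int.castRingHom R) x := by
    apply MvPolynomial.ringHom_ext
    · intro z
      simp
    · intro s
      simp [sh]
  exact RingHom.congr_fun h f

lemma totalDegree_sh_le {R : Type} [CommRing R] (α : Fin c → R) (f : MvPolynomial (Fin c) ℤ) :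
    (sh α f).totalDegree ≤ f.totalDegree := by
  unfold sh
  rw [MvPolynomial.coe_eval₂Hom, MvPolynomial.eval₂_eq']
  apply MvPolynomial.totalDegree_finsetSum_le
  intro d hd
  refine (MvPolynomial.totalDegree_mul _ _).trans ?_
  have h1 : ((Int.castRingHom (MvPolynomial (Fin c) R)) (f.coeff d)).totalDegree = 0 := by
    have : (Int.castRingHom (MvPolynomial (Fin c) R)) (f.coeff d) =
        MvPolynomial.C (((f.coeff d : ℤ)) : R) := by simp
    rw [this, MvPolynomial.totalDegree_C]
  rw [h1, zero_add]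
  refine (MvPolynomial.totalDegree_finsetProd _ _).trans ?_
  have h2 : ∀ s, ((MvPolynomial.C (α s) + MvPolynomial.X s : MvPolynomial (Fin c) R)
      ^ d s).totalDegree ≤ d s := by
    intro s
    refine (MvPolynomial.totalDegree_pow _ _).trans ?_
    have h3 : (MvPolynomial.C (α s) + MvPolynomial.X s : MvPolynomial (Fin c) R).totalDegree
        ≤ 1 := by
      refine (MvPolynomial.totalDegree_add _ _).trans (max_le ?_ ?_)
      · rw [MvPolynomial.totalDegree_C]; exact Nat.zero_le _
      · rcases subsingleton_or_nontrivial R with hR | hR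
        · rw [Subsingleton.elim (MvPolynomial.X s : MvPolynomial (Fin c) R) 0]
          simp
        · rw [MvPolynomial.totalDegree_X]
    calc d s * _ ≤ d s * 1 := Nat.mul_le_mul_left _ h3
      _ = d s := mul_one _
  refine (Finset.sum_le_sum fun s _ => h2 s).trans ?_
  have := MvPolynomial.le_totalDegree hd
  rwa [Finsupp.sum_fintype _ _ (fun _ => rfl)] at this

/-! ### The resultant at a fixed point, in the generic direction -/

lemma CB_onl' (α : Fin c → ℤ) (f : MvPolynomial (Fin c) ℤ) :
    CB f.totalDegree (onl (fun s => MvPolynomial.C (α s)) (fun s => MvPolynomial.X s) f) := by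
  rw [onl_eq_sum]
  apply CB.sum
  intro d hd
  have h1 : CB (n := c) 0 (Polynomial.C (((f.coeff d : ℤ) : MvPolynomial (Fin c) ℤ))) := by
    apply CB.C
    have : ((f.coeff d : ℤ) : MvPolynomial (Fin c) ℤ) = MvPolynomial.C (f.coeff d) := by simp
    rw [this, MvPolynomial.totalDegree_C]
  have h2 : CB (n := c) (∑ s, d s * 1) (∏ s, (Polynomial.C (MvPolynomial.C (α s)) +
      Polynomial.C (MvPolynomial.X s) * X) ^ d s) := by
    apply CB.prod
    intro s
    apply CB.pow
    intro i
    rw [coeff_add, coeff_C, coeff_C_mul, coeff_X]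
    refine (MvPolynomial.totalDegree_add _ _).trans (max_le ?_ ?_)
    · split_ifs
      · rw [MvPolynomial.totalDegree_C]; exact Nat.zero_le _
      · simp
    · split_ifs
      · rw [mul_one, MvPolynomial.totalDegree_X]
      · simp
  refine (h1.mul h2).mono ?_
  rw [zero_add]
  simp only [mul_one]
  have := MvPolynomial.le_totalDegree hd
  rwa [Finsupp.sum_fintype _ _ (fun _ => rfl)] at this

/-- The resultant at the point `α` in the generic direction. -/
noncomputable def rhod (α : Fin c → ℤ) (f g : MvPolynomial (Fin c) ℤ) : MvPolynomial (Fin c) ℤ :=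
  resultant (onl (fun s => MvPolynomial.C (α s)) (fun s => MvPolynomial.X s) f)
    (onl (fun s => MvPolynomial.C (α s)) (fun s => MvPolynomial.X s) g)
    f.totalDegree g.totalDegree

lemma totalDegree_rhod_le (α : Fin c → ℤ) (f g : MvPolynomial (Fin c) ℤ) (D : ℕ)
    (hf : f.totalDegree ≤ D) (hg : g.totalDegree ≤ D) :
    (rhod α f g).totalDegree ≤ 2 * D * D := by
  unfold rhod resultant
  refine (totalDegree_det_le (D := D) _ ?_).trans ?_
  · intro i j
    apply entry_sylvester (fun x : MvPolynomial (Fin c) ℤ => x.totalDegree ≤ D)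
    · simp
    · intro i; exact (CB_onl' α f i).trans hf
    · intro i; exact (CB_onl' α g i).trans hg
  · apply Nat.mul_le_mul_right
    omega

lemma eval_rhod {R : Type} [CommRing R] (α : Fin c → ℤ) (β : Fin c → R)
    (f g : MvPolynomial (Fin c) ℤ) :
    MvPolynomial.eval₂ (Int.castRingHom R) β (rhod α f g) =
      resultant (onl (fun s => (α s : R)) β f) (onl (fun s => (α s : R)) β g)
        f.totalDegree g.totalDegree := by
  unfold rhod
  rw [← MvPolynomial.coe_eval₂Hom, ← resultant_map_map, map_onl, map_onl]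
  have h1 : (fun s => MvPolynomial.eval₂Hom (Int.castRingHom R) β (MvPolynomial.C (α s))) =
      fun s => (α s : R) := by
    funext s
    simp
  have h2 : (fun s => MvPolynomial.eval₂Hom (Int.castRingHom R) β (MvPolynomial.X s)) = β := by
    funext s
    simp
  rw [h1, h2]

lemma eval_map_eq {R : Type} [CommRing R] (β : Fin c → R) (f : MvPolynomial (Fin c) ℤ) :
    MvPolynomial.eval β (MvPolynomial.map (Int.castRingHom R) f) =
      MvPolynomial.eval₂ (Int.castRingHom R) β f := MvPolynomial.eval_map _ _ _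

lemma eval₂_cast {R : Type} [CommRing R] (α : Fin c → ℤ) (f : MvPolynomial (Fin c) ℤ) :
    MvPolynomial.eval₂ (Int.castRingHom R) (fun s => (α s : R)) f =
      ((MvPolynomial.eval α f : ℤ) : R) := by
  have h : (Int.castRingHom R).comp (MvPolynomial.eval α) =
      MvPolynomial.eval₂Hom (Int.castRingHom R) (fun s => (α s : R)) := by
    apply MvPolynomial.ringHom_ext
    · intro z
      simp
    · intro s
      simp
  exact (RingHom.congr_fun h f).symm

section modp

variable {p : ℕ} [Fact p.Prime]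

theorem kernel {m k D B N T DH : ℕ} (f : Fin m → MvPolynomial (Fin c) ℤ)
    (A : Fin k → MvPolynomial (Fin c) ℤ) (e : Fin k → Fin m → ℕ) (κ : Fin k → Fin k)
    (E0 : Fin k → Fin m → ℕ) (r : Fin k → Fin m → ℕ) (hE : ∀ u j, e u j = E0 (κ u) j + r u j)
    (hκ : ∀ i i', (∀ j, |(e i j : ℤ) - e i' j| ≤ B) → κ i = κ i')
    (hdeg1 : ∀ j, 1 ≤ (f j).totalDegree) (hdegD : ∀ j, (f j).totalDegree ≤ D)
    (hAD : ∀ i, (A i).totalDegree ≤ D) (hT : ∑ j, (f j).totalDegree ≤ T)
    (hDH : ∀ u, (A u * ∏ j, f j ^ r u j).totalDegree ≤ DH)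
    (α β0 : Fin c → ℤ)
    (hfz : ∀ j, ((MvPolynomial.eval α (f j) : ℤ) : ZMod p) ≠ 0)
    (hft : ∀ j, ((MvPolynomial.eval β0 (topp (f j)) : ℤ) : ZMod p) ≠ 0)
    (hres : ∀ j j', j ≠ j' → ((resultant (onl α β0 (f j)) (onl α β0 (f j')) (f j).totalDegree
      (f j').totalDegree : ℤ) : ZMod p) ≠ 0)
    (hgood : Good p e D B)
    (hB : k * (D + k * ∑ j, (f j).totalDegree) ≤ B) (hN : B + k ≤ N)
    (hp : T + T * T * (2 * D * D) + DH < p) (b : Fin k → ZMod p)
    (hlow : ∀ d : Fin c →₀ ℕ, d.degree < N →
      ∑ u, b u * (sh (fun s => (α s : ZMod p)) (A u * ∏ j, f j ^ e u j)).coeff d = 0)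
    (q : Fin k) :
    ∑ u with κ u = q, MvPolynomial.C (b u) *
      sh (fun s => (α s : ZMod p)) (A u * ∏ j, f j ^ r u j) = 0 := by
  classical
  by_contra hne
  set H := ∑ u with κ u = q, MvPolynomial.C (b u) *
      sh (fun s => (α s : ZMod p)) (A u * ∏ j, f j ^ r u j) with hH
  have hmT : m ≤ T := by
    refine le_trans ?_ hT
    calc m = ∑ j : Fin m, 1 := by simp
      _ ≤ ∑ j, (f j).totalDegree := Finset.sum_le_sum fun j _ => hdeg1 j
  -- the generic direction
  have h1 : ∀ j, MvPolynomial.map (Int.castRingHom (ZMod p)) (topp (f j)) ≠ 0 := by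
    intro j h0
    apply hft j
    rw [← eval₂_cast, ← eval_map_eq, h0, map_zero]
  have h2 : ∀ j j', j ≠ j' →
      MvPolynomial.map (Int.castRingHom (ZMod p)) (rhod α (f j) (f j')) ≠ 0 := by
    intro j j' hjj h0
    apply hres j j' hjj
    rw [← resultant_cast, ← eval_rhod, ← eval_map_eq, h0, map_zero]
  have hmapdeg : ∀ g : MvPolynomial (Fin c) ℤ,
      (MvPolynomial.map (Int.castRingHom (ZMod p)) g).totalDegree ≤ g.totalDegree := fun g =>
    Finset.sup_mono (MvPolynomial.support_map_subset _ _)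
  obtain ⟨β, -, hβ⟩ := Helper12_FV.exists_point
    ((∏ j, MvPolynomial.map (Int.castRingHom (ZMod p)) (topp (f j))) *
      (∏ jj ∈ (Finset.univ : Finset (Fin m)).offDiag,
        MvPolynomial.map (Int.castRingHom (ZMod p)) (rhod α (f jj.1) (f jj.2))) * H)
    (mul_ne_zero (mul_ne_zero (Finset.prod_ne_zero_iff.2 fun j _ => h1 j)
      (Finset.prod_ne_zero_iff.2 fun jj hjj => h2 _ _ (Finset.mem_offDiag.1 hjj).2.2)) hne)
    (Finset.univ : Finset (ZMod p)) (by
      rw [Finset.card_univ, ZMod.card]
      refine lt_of_le_of_lt ?_ hp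
      refine (MvPolynomial.totalDegree_mul _ _).trans (add_le_add
        ((MvPolynomial.totalDegree_mul _ _).trans (add_le_add ?_ ?_)) ?_)
      · refine (MvPolynomial.totalDegree_finsetProd _ _).trans ?_
        exact (Finset.sum_le_sum fun j _ => (hmapdeg _).trans (totalDegree_topp_le (f j))).trans hT
      · refine (MvPolynomial.totalDegree_finsetProd _ _).trans ?_
        refine (Finset.sum_le_sum fun jj _ => (hmapdeg _).trans
          (totalDegree_rhod_le α _ _ D (hdegD jj.1) (hdegD jj.2))).trans ?_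
        rw [Finset.sum_const, smul_eq_mul]
        apply Nat.mul_le_mul_right
        rw [Finset.offDiag_card, Finset.card_univ, Fintype.card_fin]
        exact (Nat.sub_le _ _).trans (Nat.mul_le_mul hmT hmT)
      · apply MvPolynomial.totalDegree_finsetSum_le
        intro u _
        refine (MvPolynomial.totalDegree_mul _ _).trans ?_
        rw [MvPolynomial.totalDegree_C, zero_add]
        exact (totalDegree_sh_le _ _).trans (hDH u))
  rw [map_mul, map_mul, map_prod, map_prod] at hβ
  have hβ1 : ∀ j, MvPolynomial.eval₂ (Int.castRingHom (ZMod p)) β (topp (f j)) ≠ 0 := by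
    intro j
    rw [← eval_map_eq]
    exact Finset.prod_ne_zero_iff.1 (left_ne_zero_of_mul (left_ne_zero_of_mul hβ)) j
      (Finset.mem_univ j)
  have hβ2 : ∀ j j', j ≠ j' → resultant (onl (fun s => (α s : ZMod p)) β (f j))
      (onl (fun s => (α s : ZMod p)) β (f j')) (f j).totalDegree (f j').totalDegree ≠ 0 := by
    intro j j' hjj
    rw [← eval_rhod, ← eval_map_eq]
    exact Finset.prod_ne_zero_iff.1 (right_ne_zero_of_mul (left_ne_zero_of_mul hβ)) (j, j')
      (Finset.mem_offDiag.2 ⟨Finset.mem_univ _, Finset.mem_univ _, hjj⟩)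
  have hβ3 : MvPolynomial.eval β H ≠ 0 := right_ne_zero_of_mul hβ
  -- the line
  obtain ⟨Φ, hΦ⟩ : ∃ Φ : MvPolynomial (Fin c) ℤ →+* (ZMod p)[X],
    Φ = onl (fun s => (α s : ZMod p)) β := ⟨_, rfl⟩
  have hnd : ∀ g, (Φ g).natDegree ≤ g.totalDegree := by
    intro g
    rw [hΦ]
    exact natDegree_onl_le _ _ _
  have hud : ∀ j, (Φ (f j)).natDegree = (f j).totalDegree := by
    intro j
    apply le_antisymm (hnd _)
    apply le_natDegree_of_ne_zero
    rw [hΦ, coeff_onl]
    exact hβ1 j
  have hcopu : Pairwise fun j j' => IsCoprime (Φ (f j)) (Φ (f j')) := by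
    intro j j' hjj
    have h1 : resultant (Φ (f j)) (Φ (f j')) (f j).totalDegree (f j').totalDegree ≠ 0 := by
      rw [hΦ]
      exact hβ2 j j' hjj
    obtain ⟨x, y, -, -, hxy⟩ := exists_mul_add_mul_eq_C_resultant (Φ (f j)) (Φ (f j')) (hud j).le
      (hud j').le (Or.inl (by have := hdeg1 j; omega))
    obtain ⟨ρ, hρ⟩ : ∃ ρ, ρ = resultant (Φ (f j)) (Φ (f j')) (f j).totalDegree
      (f j').totalDegree := ⟨_, rfl⟩
    rw [← hρ] at h1 hxy
    refine ⟨C ρ⁻¹ * x, C ρ⁻¹ * y, ?_⟩
    have h3 : C ρ⁻¹ * C ρ = (1 : (ZMod p)[X]) := by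
      rw [← C_mul, inv_mul_cancel₀ h1, C_1]
    rw [← h3, ← hxy]
    ring
  have htm : ∀ i, tm (fun i => Φ (A i)) (fun j => Φ (f j)) e i = Φ (A i * ∏ j, f j ^ e i j) := by
    intro i
    unfold tm pw
    rw [map_mul, map_prod]
    congr 1
    apply Finset.prod_congr rfl
    intro j _
    rw [map_pow]
  have hfz' : ∀ j, (Φ (f j)).eval 0 ≠ 0 := by
    intro j
    rw [hΦ, eval_zero_onl, eval₂_cast]
    exact hfz j
  have hf0 : ∀ j, Φ (f j) ≠ 0 := by
    intro j h0
    apply hfz' j
    rw [h0, eval_zero]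
  have hdirH : dir β H = ∑ u with κ u = q, C (b u) * Φ (A u * ∏ j, f j ^ r u j) := by
    rw [hH, map_sum]
    apply Finset.sum_congr rfl
    intro u _
    rw [map_mul (dir β), dir_sh, hΦ]
    congr 1
    simp [dir]
  have hclass : (∑ i, if κ i = q then C (b i) *
      tm (fun i => Φ (A i)) (fun j => Φ (f j)) e i else 0) ≠ 0 := by
    rw [← Finset.sum_filter]
    have h3 : ∑ i with κ i = q, C (b i) * tm (fun i => Φ (A i)) (fun j => Φ (f j)) e i =
        (∏ j, Φ (f j) ^ E0 q j) * dir β H := by
      rw [hdirH, Finset.mul_sum]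
      apply Finset.sum_congr rfl
      intro i hi
      rw [Finset.mem_filter] at hi
      rw [htm, map_mul, map_mul, map_prod, map_prod]
      have h4 : ∏ j, Φ (f j ^ e i j) = (∏ j, Φ (f j) ^ E0 q j) * ∏ j, Φ (f j ^ r i j) := by
        rw [← Finset.prod_mul_distrib]
        apply Finset.prod_congr rfl
        intro j _
        rw [map_pow, map_pow, hE, hi.2, pow_add]
      rw [h4]
      ring
    rw [h3]
    apply mul_ne_zero
    · exact Finset.prod_ne_zero_iff.2 fun j _ => pow_ne_zero _ (hf0 j)
    · intro h0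
      apply hβ3
      rw [← eval_dir, h0, eval_zero]
  apply order_bound (p := p) (fun i => Φ (A i)) (fun j => Φ (f j)) e D D B hgood
    (fun i => (hnd _).trans (hAD i)) (fun j => by rw [hud]; exact hdeg1 j)
    (fun j => by rw [hud]; exact hdegD j) hcopu κ hκ (by
      rw [Fintype.card_fin]
      refine le_trans ?_ hB
      apply Nat.mul_le_mul_left
      apply Nat.add_le_add_left
      apply Nat.mul_le_mul_left
      exact Finset.sum_le_sum fun j _ => (hud j).le) b q hclass 0 hfz' N (by
        rw [Fintype.card_fin]; exact hN)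
  rw [C_0, sub_zero]
  have h5 : ∑ i, C (b i) * tm (fun i => Φ (A i)) (fun j => Φ (f j)) e i =
      dir β (∑ i, MvPolynomial.C (b i) *
        sh (fun s => (α s : ZMod p)) (A i * ∏ j, f j ^ e i j)) := by
    rw [map_sum]
    apply Finset.sum_congr rfl
    intro i _
    rw [htm, map_mul (dir β), dir_sh, hΦ]
    congr 1
    simp [dir]
  rw [h5]
  apply dir_dvd
  intro d hd
  rw [MvPolynomial.coeff_sum, ← hlow d hd]
  apply Finset.sum_congr rfl
  intro u _
  rw [MvPolynomial.coeff_C_mul]

end modp

end Pool.Agent.Helper12_CW
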