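import Mathlib

set_option autoImplicit false

/-!
Replacing the factors of a product of matrices one at a time.
-/

namespace Pool.Agent.Helper12_CW

open Matrix

/-- The bilinear value `a M_0 M_1 ... M_(n-1) z`. -/
def val {R : Type} [CommRing R] {w : ℕ} (n : ℕ) (a z : Fin w → R)
    (M : ℕ → Matrix (Fin w) (Fin w) R) : R :=
  a ⬝ᵥ (((List.range n).map M).prod *ᵥ z)

lemma val_zero {R : Type} [CommRing R] {w : ℕ} (a z : Fin w → R)
    (M : ℕ → Matrix (Fin w) (Fin w) R) : val 0 a z M = a ⬝ᵥ z := by
  unfold val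
  simp

lemma val_succ {R : Type} [CommRing R] {w : ℕ} (n : ℕ) (a z : Fin w → R)
    (M : ℕ → Matrix (Fin w) (Fin w) R) : val (n + 1) a z M = val n a (M n *ᵥ z) M := by
  unfold val
  rw [List.range_succ, List.map_append, List.prod_append, List.map_singleton,
    List.prod_singleton, Matrix.mulVec_mulVec]

lemma val_congr {R : Type} [CommRing R] {w : ℕ} (n : ℕ) (a z : Fin w → R)
    (M M' : ℕ → Matrix (Fin w) (Fin w) R) (h : ∀ i < n, M i = M' i) :
    val n a z M = val n a z M' := by
  unfold val
  congr 3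
  apply List.map_congr_left
  intro i hi
  exact h i (List.mem_range.1 hi)

/-- The value as a row vector times the last factor. -/
lemma val_succ' {R : Type} [CommRing R] {w : ℕ} (n : ℕ) (a z : Fin w → R)
    (M : ℕ → Matrix (Fin w) (Fin w) R) :
    val (n + 1) a z M = (a ᵥ* ((List.range n).map M).prod) ⬝ᵥ (M n *ᵥ z) := by
  rw [val_succ]
  unfold val
  rw [Matrix.dotProduct_mulVec]

lemma val_one {R : Type} [CommRing R] {w : ℕ} (a z : Fin w → R)
    (M : ℕ → Matrix (Fin w) (Fin w) R) : val 1 a z M = a ⬝ᵥ (M 0 *ᵥ z) := by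
  rw [show (1 : ℕ) = 0 + 1 from rfl, val_succ, val_zero]

lemma map_val {R S : Type} [CommRing R] [CommRing S] (f : R →+* S) {w : ℕ} (n : ℕ)
    (a z : Fin w → R) (M : ℕ → Matrix (Fin w) (Fin w) R) :
    f (val n a z M) = val n (fun i => f (a i)) (fun i => f (z i)) (fun i => (M i).map f) := by
  induction n generalizing z with
  | zero =>
    rw [val_zero, val_zero]
    exact f.map_dotProduct a z
  | succ n ih =>
    rw [val_succ, val_succ, ih]
    congr 1
    funext i
    exact f.map_mulVec (M n) z i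

/-- Pairing consecutive factors. -/
lemma val_pair {R : Type} [CommRing R] {w : ℕ} (n : ℕ) (a z : Fin w → R)
    (M : ℕ → Matrix (Fin w) (Fin w) R) :
    val (2 * n) a z M = val n a z fun i => M (2 * i) * M (2 * i + 1) := by
  induction n generalizing z with
  | zero => rfl
  | succ n ih =>
    rw [show 2 * (n + 1) = 2 * n + 1 + 1 by ring, val_succ, val_succ, val_succ, ih,
      Matrix.mulVec_mulVec]

theorem swap {R : Type} [CommRing R] {w : ℕ} {X Y : ℕ → Type} [∀ i, Nonempty (Y i)]
    (Q : ∀ i, X i → Matrix (Fin w) (Fin w) R) (Q' : ∀ i, Y i → Matrix (Fin w) (Fin w) R)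
    (n : ℕ) (h : ∀ i < n, ∀ r s : Fin w → R, (∀ y, r ⬝ᵥ (Q' i y *ᵥ s) = 0) →
      ∀ x, r ⬝ᵥ (Q i x *ᵥ s) = 0) (a z : Fin w → R)
    (hall : ∀ y : ∀ i, Y i, val n a z (fun i => Q' i (y i)) = 0) (x : ∀ i, X i) :
    val n a z (fun i => Q i (x i)) = 0 := by
  classical
  induction n generalizing z with
  | zero =>
    have := hall (fun i => Classical.arbitrary _)
    rw [val_zero] at this ⊢
    exact this
  | succ n ih =>
    rw [val_succ']
    refine h n (Nat.lt_succ_self n) _ _ (fun y0 => ?_) (x n)
    have h1 := ih (fun i hi => h i (Nat.lt_succ_of_lt hi)) (Q' n y0 *ᵥ z) (fun y => ?_)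
    · unfold val at h1
      rw [Matrix.dotProduct_mulVec] at h1
      exact h1
    · have h2 := hall (Function.update y n y0)
      rw [val_succ] at h2
      simp only [Function.update_self] at h2
      rw [← h2]
      apply val_congr
      intro i hi
      rw [Function.update_of_ne hi.ne]

end Pool.Agent.Helper12_CW
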